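import Pool.Agent.helper15.FH.Defs

set_option autoImplicit false

/-!
# Support facts for the law on pairs (MP_8af768_co)
-/

namespace Pool.Agent.helper15.FH

open Finset Pool.Agent.helper32.Cant

noncomputable section

theorem cY_refl (u : Y) : cY u u := ⟨rfl, Or.inl rfl⟩

theorem cY_symm {u u' : Y} (h : cY u u') : cY u' u := by
  obtain ⟨h1, h2⟩ := h
  refine ⟨h1.symm, ?_⟩
  rcases h2 with h | h | h
  · exact Or.inl h.symm
  · exact Or.inr (Or.inr h)
  · exact Or.inr (Or.inl h)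

theorem pent_tri : ∀ a b d : ZMod 5, (b = a ∨ b = a + 1 ∨ a = b + 1) →
    (d = b ∨ d = b + 1 ∨ b = d + 1) → (d = a ∨ d = a + 1 ∨ a = d + 1) →
    a = b ∨ b = d ∨ a = d := by
  decide

/-- the pentagon has no triangles -/
theorem cY_tri {a b d : Y} (hab : cY a b) (hbd : cY b d) (had : cY a d) :
    a = b ∨ b = d ∨ a = d := by
  obtain ⟨a1, a2⟩ := a
  obtain ⟨b1, b2⟩ := b
  obtain ⟨d1, d2⟩ := d
  obtain ⟨h1, h2⟩ := hab
  obtain ⟨h3, h4⟩ := hbd
  obtain ⟨_, h6⟩ := had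
  simp only at h1 h2 h3 h4 h6
  subst h1
  subst h3
  simp only [Prod.mk.injEq, true_and]
  exact pent_tri a2 b2 d2 h2 h4 h6

theorem cG_refl {X : Type} (Γ : SimpleGraph X) (p : X × Y) : cG Γ p p := Or.inr ⟨rfl, cY_refl _⟩

theorem cG_symm {X : Type} {Γ : SimpleGraph X} {p q : X × Y} (h : cG Γ p q) : cG Γ q p := by
  rcases h with h | ⟨h1, h2⟩
  · exact Or.inl h.symm
  · exact Or.inr ⟨h1.symm, cY_symm h2⟩

theorem cH_refl {X : Type} (Γ : SimpleGraph X) (p : X × Fin 5) : cH Γ p p := Or.inr rfl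

theorem cH_symm {X : Type} {Γ : SimpleGraph X} {p q : X × Fin 5} (h : cH Γ p q) : cH Γ q p := by
  rcases h with h | h
  · exact Or.inl h.symm
  · exact Or.inr h.symm

variable (c : Cfg)

theorem N_pos : (0 : ℝ) < c.N := by exact_mod_cast c.hN

theorem g_pos : (0 : ℝ) < c.g := by exact_mod_cast c.hg

theorem ρ_pos : 0 < c.ρ := lt_trans one_pos c.hρ

theorem θ_pos : 0 < c.ρ / (5 * c.g) := div_pos (ρ_pos c) (mul_pos (by norm_num) (g_pos c))

theorem bw_nonneg (p q : c.X × Fin 5) : 0 ≤ bw c p q :=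
  add_nonneg (ind_nonneg _) (mul_nonneg (θ_pos c).le (ind_nonneg _))

theorem bw_symm (p q : c.X × Fin 5) : bw c p q = bw c q p := by
  unfold bw
  rw [ind_congr (eq_comm (a := p) (b := q)), ind_congr (c.Γ.adj_comm p.1 q.1)]

theorem bw_self (p : c.X × Fin 5) : bw c p p = 1 := by
  unfold bw
  rw [ind_of rfl, ind_of_not (c.Γ.irrefl), mul_zero, add_zero]

theorem bw_adj {p q : c.X × Fin 5} (h : c.Γ.Adj p.1 q.1) : bw c p q = c.ρ / (5 * c.g) := by
  unfold bw
  rw [ind_of h, ind_of_not, zero_add, mul_one]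
  rintro rfl
  exact c.Γ.irrefl h

theorem bw_pos_iff {p q : c.X × Fin 5} : 0 < bw c p q ↔ cH c.Γ p q := by
  constructor
  · intro h
    by_contra hc
    unfold cH at hc
    push Not at hc
    unfold bw at h
    rw [ind_of_not hc.2, ind_of_not hc.1] at h
    simp at h
  · rintro (h | h)
    · rw [bw_adj c h]
      exact θ_pos c
    · rw [h, bw_self]
      exact one_pos

theorem Bw_nonneg (ω ω' : W c) : 0 ≤ Bw c ω ω' :=
  mul_nonneg (ind_nonneg _) (prod_nonneg fun _ _ => bw_nonneg c _ _)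

theorem Bw_symm (ω ω' : W c) : Bw c ω ω' = Bw c ω' ω := by
  unfold Bw
  rw [ind_congr (eq_comm (a := mm c ω) (b := mm c ω'))]
  congr 1
  exact prod_congr rfl fun _ _ => bw_symm c _ _

theorem Bw_self (ω : W c) : Bw c ω ω = 1 := by
  unfold Bw
  rw [ind_of rfl, one_mul]
  exact prod_eq_one fun _ _ => bw_self c _

theorem Bw_congr {ω ω' : W c} (h : c.f ω = c.f ω') (η : W c) : Bw c ω η = Bw c ω' η := by
  unfold Bw mm vv
  rw [h]

theorem Bw_pos {ω ω' : W c} (h : 0 < Bw c ω ω') :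
    mm c ω = mm c ω' ∧ ∀ l, cH c.Γ (vv c ω l) (vv c ω' l) := by
  have h1 : mm c ω = mm c ω' := by
    by_contra hc
    unfold Bw at h
    rw [ind_of_not hc, zero_mul] at h
    exact lt_irrefl _ h
  refine ⟨h1, fun l => ?_⟩
  unfold Bw at h
  rw [ind_of h1, one_mul] at h
  have h2 : ∏ l, bw c (vv c ω l) (vv c ω' l) ≠ 0 := h.ne'
  rw [prod_ne_zero_iff] at h2
  exact (bw_pos_iff c).1 (lt_of_le_of_ne (bw_nonneg c _ _) (h2 l (mem_univ l)).symm)

theorem Bw_pos_of {ω ω' : W c} (h1 : mm c ω = mm c ω')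
    (h2 : ∀ l, cH c.Γ (vv c ω l) (vv c ω' l)) : 0 < Bw c ω ω' := by
  unfold Bw
  rw [ind_of h1, one_mul]
  exact prod_pos fun l _ => (bw_pos_iff c).2 (h2 l)

/-- compatible images have compatible sources -/
theorem Bw_compat {ω ω' : W c} (h : 0 < Bw c ω ω') (k : Fin c.N) : cG c.Γ (ω k) (ω' k) :=
  c.hom ω ω' (Bw_pos c h).1 (Bw_pos c h).2 k

theorem fib_compat {ω ω' : W c} (h : c.f ω = c.f ω') (k : Fin c.N) : cG c.Γ (ω k) (ω' k) := by
  refine c.hom ω ω' (by rw [h]) (fun l => ?_) k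
  rw [h]
  exact cH_refl _ _

theorem Zz_pos : 0 < Zz c := by
  obtain ⟨x⟩ := c.hX
  have ω0 : W c := fun _ => (x, (true, 0))
  refine lt_of_lt_of_le (b := Bw c ω0 ω0) (by rw [Bw_self]; exact one_pos) ?_
  refine (single_le_sum (f := fun ω' => Bw c ω0 ω') (fun ω' _ => Bw_nonneg c ω0 ω')
    (mem_univ ω0)).trans ?_
  exact single_le_sum (f := fun ω => ∑ ω' : W c, Bw c ω ω')
    (fun ω _ => sum_nonneg fun ω' _ => Bw_nonneg c ω ω') (mem_univ ω0)

theorem mu_nonneg (z : O c) : 0 ≤ mu c z := div_nonneg (Bw_nonneg c _ _) (Zz_pos c).le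

theorem mu_prob : IsProb (mu c) := by
  refine ⟨mu_nonneg c, ?_⟩
  unfold mu
  rw [← sum_div, Fintype.sum_prod_type]
  exact div_self (Zz_pos c).ne'

theorem mu_swap (z : O c) : mu c (z.2, z.1) = mu c z := by
  unfold mu
  rw [Bw_symm]

theorem mu_pos_iff {z : O c} : 0 < mu c z ↔ 0 < Bw c z.1 z.2 := by
  unfold mu
  rw [div_pos_iff_of_pos_right (Zz_pos c)]

/-- the law depends on the first vertex only through its image -/
theorem mu_congr {ω ω' : W c} (h : c.f ω = c.f ω') (η : W c) : mu c (ω, η) = mu c (ω', η) := by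
  unfold mu
  rw [Bw_congr c h]

theorem mu_compat {z : O c} (h : 0 < mu c z) (k : Fin c.N) : cG c.Γ (z.1 k) (z.2 k) :=
  Bw_compat c ((mu_pos_iff c).1 h) k

/-- the positions are equal or adjacent -/
theorem mu_pos_x {z : O c} (h : 0 < mu c z) (k : Fin c.N) :
    x1 c z k = x2 c z k ∨ c.Γ.Adj (x1 c z k) (x2 c z k) := by
  rcases mu_compat c h k with h | h
  · exact Or.inr h
  · exact Or.inl h.1

/-- the whole fibre of the first vertex is compatible with the second one -/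
theorem mu_fib {z : O c} (h : 0 < mu c z) {ω : W c} (hω : c.f ω = c.f z.1) (k : Fin c.N) :
    cG c.Γ (ω k) (z.2 k) :=
  mu_compat c (z := (ω, z.2)) (by rw [mu_congr c hω]; exact h) k

theorem mu_fib2 {z : O c} (h : 0 < mu c z) {ω ω' : W c} (hω : c.f ω = c.f z.1)
    (hω' : c.f ω' = c.f z.2) (k : Fin c.N) : cG c.Γ (ω k) (ω' k) := by
  have h1 : 0 < mu c (ω, z.2) := by rw [mu_congr c hω]; exact h
  have h2 : 0 < mu c (z.2, ω) := by
    have := mu_swap c (ω, z.2)
    rw [this]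
    exact h1
  exact cG_symm (mu_fib c h2 hω' k)

theorem mem_Cs {ω : W c} {k : Fin c.N} {u : Y} :
    u ∈ Cs c ω k ↔ ∃ ω' : W c, c.f ω' = c.f ω ∧ (ω' k).1 = (ω k).1 ∧ (ω' k).2 = u := by
  classical
  unfold Cs
  simp

theorem self_mem_Cs (ω : W c) (k : Fin c.N) : (ω k).2 ∈ Cs c ω k :=
  (mem_Cs c).2 ⟨ω, rfl, rfl, rfl⟩

theorem Cs_congr {ω ω' : W c} {k : Fin c.N} (h : c.f ω = c.f ω') (hk : (ω k).1 = (ω' k).1) :
    Cs c ω k = Cs c ω' k := by
  ext u
  rw [mem_Cs, mem_Cs, h, hk]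

theorem Cs_compat {ω : W c} {k : Fin c.N} {u u' : Y} (h : u ∈ Cs c ω k) (h' : u' ∈ Cs c ω k) :
    cY u u' := by
  obtain ⟨ω1, a1, a2, a3⟩ := (mem_Cs c).1 h
  obtain ⟨ω2, b1, b2, b3⟩ := (mem_Cs c).1 h'
  rcases fib_compat c (a1.trans b1.symm) k with h | h
  · rw [a2, b2] at h
    exact absurd h c.Γ.irrefl
  · rw [← a3, ← b3]
    exact h.2

/-- pairwise compatible sets in the two pentagons have at most two elements -/
theorem card_le_two_of_compat {s : Finset Y} (h : ∀ u ∈ s, ∀ u' ∈ s, cY u u') : s.card ≤ 2 := by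
  by_contra hc
  push Not at hc
  obtain ⟨a, b, d, ha, hb, hd, hab, had, hbd⟩ := two_lt_card_iff.1 hc
  rcases cY_tri (h a ha b hb) (h b hb d hd) (h a ha d hd) with h | h | h
  · exact hab h
  · exact hbd h
  · exact had h

theorem Cs_card (ω : W c) (k : Fin c.N) : (Cs c ω k).card ≤ 2 :=
  card_le_two_of_compat fun _ h _ h' => Cs_compat c h h'

theorem Cs_card_pos (ω : W c) (k : Fin c.N) : 0 < (Cs c ω k).card :=
  card_pos.2 ⟨_, self_mem_Cs c ω k⟩

/-- on the support, elements of the two sets at an agreement place are compatible -/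
theorem Cs_cross {z : O c} (h : 0 < mu c z) {k : Fin c.N} (hk : ag c k z) {u u' : Y}
    (hu : u ∈ Cs c z.1 k) (hu' : u' ∈ Cs c z.2 k) : cY u u' := by
  obtain ⟨ω1, a1, a2, a3⟩ := (mem_Cs c).1 hu
  obtain ⟨ω2, b1, b2, b3⟩ := (mem_Cs c).1 hu'
  have hk' : (z.1 k).1 = (z.2 k).1 := hk
  rcases mu_fib2 c h a1 b1 k with h | h
  · rw [a2, b2, hk'] at h
    exact absurd h c.Γ.irrefl
  · rw [← a3, ← b3]
    exact h.2

/-- at an agreement place the two sets agree if both have two elements -/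
theorem Cs_eq {z : O c} (h : 0 < mu c z) {k : Fin c.N} (hk : ag c k z)
    (h1 : ¬ (Cs c z.1 k).card < 2) (h2 : ¬ (Cs c z.2 k).card < 2) : Cs c z.1 k = Cs c z.2 k := by
  classical
  have h3 : (Cs c z.1 k ∪ Cs c z.2 k).card ≤ 2 := by
    refine card_le_two_of_compat fun u hu u' hu' => ?_
    rcases mem_union.1 hu with a | a <;> rcases mem_union.1 hu' with b | b
    · exact Cs_compat c a b
    · exact Cs_cross c h hk a b
    · exact cY_symm (Cs_cross c h hk b a)
    · exact Cs_compat c a b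
  have e1 : Cs c z.1 k = Cs c z.1 k ∪ Cs c z.2 k :=
    eq_of_subset_of_card_le subset_union_left (by omega)
  have e2 : Cs c z.2 k = Cs c z.1 k ∪ Cs c z.2 k :=
    eq_of_subset_of_card_le subset_union_right (by omega)
  rw [e1, ← e2]

/-- at a good agreement place the second `Y`-component lies in the set of the first vertex -/
theorem y2_mem_Cs {z : O c} (h : 0 < mu c z) {k : Fin c.N} (hk : ag c k z)
    (h1 : ¬ (Cs c z.1 k).card < 2) : (z.2 k).2 ∈ Cs c z.1 k := by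
  classical
  have h3 : (insert (z.2 k).2 (Cs c z.1 k)).card ≤ 2 := by
    have a0 : ∀ u ∈ Cs c z.1 k, cY u (z.2 k).2 := fun u hu =>
      Cs_cross c h hk hu (self_mem_Cs c z.2 k)
    refine card_le_two_of_compat fun u hu u' hu' => ?_
    rcases mem_insert.1 hu with a | a <;> rcases mem_insert.1 hu' with b | b
    · rw [a, b]
      exact cY_refl _
    · rw [a]
      exact cY_symm (a0 _ b)
    · rw [b]
      exact a0 _ a
    · exact Cs_compat c a b
  by_contra hc
  rw [card_insert_of_notMem hc] at h3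
  omega

end

end Pool.Agent.helper15.FH
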