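import Pool.Agent.helper15.FH.EN

set_option autoImplicit false

/-!
# The chain rule in two ways (MP_8af768_co)
-/

namespace Pool.Agent.helper15.FH

open Finset Pool.Agent.helper32.Cant

noncomputable section

variable (c : Cfg)

theorem pre_pair_iff {Ω : Type} {n : ℕ} {α β : Type} (A : Ω → Fin n → α) (B : Ω → Fin n → β)
    (k : ℕ) (ω ω' : Ω) :
    pre (fun z k => (A z k, B z k)) k ω = pre (fun z k => (A z k, B z k)) k ω' ↔
      pre A k ω = pre A k ω' ∧ pre B k ω = pre B k ω' := by
  unfold pre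
  constructor
  · intro h
    constructor
    · funext i
      have := congrFun h i
      by_cases hi : (i : ℕ) < k
      · rw [if_pos hi, if_pos hi] at this ⊢
        simp only [Option.some.injEq, Prod.mk.injEq] at this ⊢
        exact this.1
      · rw [if_neg hi, if_neg hi]
    · funext i
      have := congrFun h i
      by_cases hi : (i : ℕ) < k
      · rw [if_pos hi, if_pos hi] at this ⊢
        simp only [Option.some.injEq, Prod.mk.injEq] at this ⊢
        exact this.2
      · rw [if_neg hi, if_neg hi]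
  · rintro ⟨h1, h2⟩
    funext i
    have e1 := congrFun h1 i
    have e2 := congrFun h2 i
    by_cases hi : (i : ℕ) < k
    · rw [if_pos hi, if_pos hi] at e1 e2 ⊢
      simp only [Option.some.injEq, Prod.mk.injEq] at e1 e2 ⊢
      exact ⟨e1, e2⟩
    · rw [if_neg hi, if_neg hi]

theorem pre_eq_iff {Ω : Type} {n : ℕ} {α : Type} (A : Ω → Fin n → α)
    (k : ℕ) (ω ω' : Ω) :
    pre A k ω = pre A k ω' ↔ ∀ i : Fin n, (i : ℕ) < k → A ω i = A ω' i := by
  unfold pre
  constructor
  · intro h i hi
    have := congrFun h i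
    rw [if_pos hi, if_pos hi] at this
    exact Option.some.inj this
  · intro h
    funext i
    by_cases hi : (i : ℕ) < k
    · rw [if_pos hi, if_pos hi, h i hi]
    · rw [if_neg hi, if_neg hi]

/-- the past is a function of the first vertex and the earlier positions of the second -/
theorem GG_ref (k : ℕ) : Ref (GG c k) (fun z => (z.1, pre (x2 c) k z)) := by
  intro z z' h
  simp only [Prod.mk.injEq] at h
  obtain ⟨h1, h2⟩ := h
  have h3 : x1 c z = x1 c z' := by
    unfold x1
    rw [h1]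
  unfold GG
  rw [h3, h2]
  congr 2
  rw [pre_eq_iff] at h2 ⊢
  intro i hi
  have e1 : ag c i z ↔ ag c i z' := by
    unfold ag
    rw [h3, h2 i hi]
  unfold YE
  rw [h1]
  by_cases h4 : ag c i z
  · rw [if_pos h4, if_pos (e1.1 h4)]
  · rw [if_neg h4, if_neg (fun h => h4 (e1.2 h))]

theorem CHN : ∑ k : Fin c.N, Hc (mu c) (fun z => YE c z k) (fun z => (GG c k z, x2 c z k))
    ≤ Hc (mu c) (YE c) (fun z => (x1 c z, x2 c z))
      + (Hc (mu c) (x2 c) (x1 c) - Hc (mu c) (x2 c) (fun z => z.1)) := by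
  have hμ := mu_prob c
  have h1 : Hc (mu c) (fun z k => (x2 c z k, YE c z k)) (x1 c)
      = Hc (mu c) (x2 c) (x1 c) + Hc (mu c) (YE c) (fun z => (x1 c z, x2 c z)) := by
    rw [← Hc_pair hμ]
    refine Hc_congr (fun _ _ => Iff.rfl) fun z z' => ?_
    simp only [Prod.mk.injEq, funext_iff]
    exact ⟨fun a => ⟨a.1, fun i => (a.2 i).1, fun i => (a.2 i).2⟩,
      fun a => ⟨a.1, fun i => ⟨a.2.1 i, a.2.2 i⟩⟩⟩
  have h2 : ∀ k : Fin c.N, Hc (mu c) (fun z => (x2 c z k, YE c z k))
        (fun z => (x1 c z, pre (fun z k => (x2 c z k, YE c z k)) k z))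
      = Hc (mu c) (fun z => x2 c z k) (GG c k)
        + Hc (mu c) (fun z => YE c z k) (fun z => (GG c k z, x2 c z k)) := by
    intro k
    rw [← Hc_pair hμ]
    refine Hc_congr (fun z z' => ?_) fun z z' => ?_
    · simp only [Prod.mk.injEq, GG, pre_pair_iff]
    · simp only [Prod.mk.injEq, GG, pre_pair_iff]
  have h3 : ∀ k : Fin c.N, Hc (mu c) (fun z => x2 c z k) (fun z => (z.1, pre (x2 c) k z))
      ≤ Hc (mu c) (fun z => x2 c z k) (GG c k) := fun k => Hc_anti hμ _ (GG_ref c k)
  have h4 := Hc_pi hμ (fun z k => (x2 c z k, YE c z k)) (x1 c)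
  have h5 := Hc_pi hμ (x2 c) (fun z => z.1)
  rw [h1, sum_congr rfl fun k _ => h2 k, sum_add_distrib] at h4
  have h6 := sum_le_sum fun k (_ : k ∈ univ) => h3 k
  linarith

end

end Pool.Agent.helper15.FH
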