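import Pool.Agent.helper15.FH.GI

set_option autoImplicit false

/-!
# Entropies on a fibre, and independence (MP_8af768_co)
-/

namespace Pool.Agent.helper15.FH

open Finset Pool.Agent.helper32.Cant

noncomputable section

variable (c : Cfg)

/-- size of the fibre of `ω` -/
def FF (ω : W c) : ℝ := ∑ ω' : W c, ind (c.f ω' = c.f ω)

theorem FF_pos (ω : W c) : 0 < FF c ω := by
  unfold FF
  refine lt_of_lt_of_le (b := ind (c.f ω = c.f ω)) (by rw [ind_of rfl]; exact one_pos) ?_
  exact single_le_sum (f := fun ω' => ind (c.f ω' = c.f ω)) (fun ω' _ => ind_nonneg _)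
    (mem_univ ω)

theorem fst_eq_iff (z z' : O c) : z.1 = z'.1 ↔ x1 c z = x1 c z' ∧ y1 c z = y1 c z' := by
  unfold x1 y1
  constructor
  · intro h
    rw [h]
    exact ⟨rfl, rfl⟩
  · rintro ⟨h1, h2⟩
    funext k
    exact Prod.ext (congrFun h1 k) (congrFun h2 k)

theorem snd_eq_iff (z z' : O c) : z.2 = z'.2 ↔ x2 c z = x2 c z' ∧ y2 c z = y2 c z' := by
  unfold x2 y2
  constructor
  · intro h
    rw [h]
    exact ⟨rfl, rfl⟩
  · rintro ⟨h1, h2⟩
    funext k
    exact Prod.ext (congrFun h1 k) (congrFun h2 k)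

theorem pm_fw_snd (z : O c) : pm (mu c) (fun z => (fw c z, z.2)) z = FF c z.1 * mu c z := by
  unfold pm
  rw [Fintype.sum_prod_type]
  unfold FF
  rw [sum_mul]
  refine sum_congr rfl fun y1 _ => ?_
  rw [sum_eq_single z.2]
  · by_cases h : c.f y1 = c.f z.1
    · rw [ind_of h, ind_of (show (fw c (y1, z.2), (y1, z.2).2) = (fw c z, z.2) by
        unfold fw; rw [h]), mul_one, one_mul, mu_congr c h]
    · rw [ind_of_not h, ind_of_not (fun h' => h (congrArg Prod.fst h')), mul_zero, zero_mul]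
  · intro y2 _ hy
    rw [ind_of_not (fun h' => hy (congrArg Prod.snd h')), mul_zero]
  · intro h
    exact absurd (mem_univ _) h

theorem pm_fw_snd_fst (z : O c) : pm (mu c) (fun z => ((fw c z, z.2), z.1)) z = mu c z := by
  unfold pm
  rw [sum_eq_single z]
  · rw [ind_of rfl, mul_one]
  · intro y _ hy
    rw [ind_of_not (fun h' => hy ?_), mul_zero]
    simp only [Prod.mk.injEq] at h'
    exact Prod.ext h'.2 h'.1.2
  · intro h
    exact absurd (mem_univ _) h

theorem pm_fw_fst (z : O c) : pm (mu c) (fun z => (fw c z, z.1)) z = ∑ y2, mu c (z.1, y2) := by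
  unfold pm
  rw [Fintype.sum_prod_type, sum_eq_single z.1]
  · refine sum_congr rfl fun y2 _ => ?_
    rw [ind_of (show (fw c (z.1, y2), (z.1, y2).1) = (fw c z, z.1) from rfl), mul_one]
  · intro y1 _ hy
    refine sum_eq_zero fun y2 _ => ?_
    rw [ind_of_not (fun h' => hy (congrArg Prod.snd h')), mul_zero]
  · intro h
    exact absurd (mem_univ _) h

theorem pm_fw (z : O c) : pm (mu c) (fw c) z = FF c z.1 * ∑ y2, mu c (z.1, y2) := by
  unfold pm
  rw [Fintype.sum_prod_type]
  unfold FF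
  rw [sum_mul]
  refine sum_congr rfl fun y1 _ => ?_
  rw [mul_sum]
  refine sum_congr rfl fun y2 _ => ?_
  by_cases h : c.f y1 = c.f z.1
  · rw [ind_of h, ind_of (show fw c (y1, y2) = fw c z from h), mul_one, one_mul, mu_congr c h]
  · rw [ind_of_not h, ind_of_not (fun h' : fw c (y1, y2) = fw c z => h h'), mul_zero, zero_mul]

theorem IND : Hc (mu c) (fun z => z.1) (fun z => (fw c z, z.2))
    = Hc (mu c) (fun z => z.1) (fw c) := by
  have hμ := mu_prob c
  unfold Hc
  refine ex_congr hμ.1 fun z hz => ?_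
  congr 1
  rw [pm_fw_snd, pm_fw_snd_fst, pm_fw_fst, pm_fw]
  have h1 : 0 < ∑ y2, mu c (z.1, y2) := by
    refine lt_of_lt_of_le hz ?_
    exact single_le_sum (f := fun y2 => mu c (z.1, y2)) (fun y2 _ => mu_nonneg c _)
      (mem_univ z.2)
  rw [mul_div_assoc, mul_div_assoc, div_self hz.ne', div_self h1.ne']

theorem IND2 : Hc (mu c) (y1 c) (fun z => (fw c z, x1 c z))
    ≤ Hc (mu c) (y1 c) (fun z => (fw c z, x1 c z, x2 c z)) := by
  have hμ := mu_prob c
  have h1 : Hc (mu c) (fun z => z.1) (fun z => (fw c z, z.2))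
      = Hc (mu c) (x1 c) (fun z => (fw c z, z.2))
        + Hc (mu c) (y1 c) (fun z => ((fw c z, z.2), x1 c z)) := by
    rw [← Hc_pair hμ]
    refine Hc_congr (fun _ _ => Iff.rfl) fun z z' => ?_
    rw [fst_eq_iff]
    simp only [Prod.mk.injEq]
  have h2 : Hc (mu c) (fun z => z.1) (fw c)
      = Hc (mu c) (x1 c) (fw c) + Hc (mu c) (y1 c) (fun z => (fw c z, x1 c z)) := by
    rw [← Hc_pair hμ]
    refine Hc_congr (fun _ _ => Iff.rfl) fun z z' => ?_
    rw [fst_eq_iff]
    simp only [Prod.mk.injEq]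
  have h3 : Hc (mu c) (x1 c) (fun z => (fw c z, z.2)) ≤ Hc (mu c) (x1 c) (fw c) :=
    Hc_anti hμ _ fun ω ω' h => congrArg Prod.fst h
  have h4 : Hc (mu c) (y1 c) (fun z => ((fw c z, z.2), x1 c z))
      ≤ Hc (mu c) (y1 c) (fun z => (fw c z, x1 c z, x2 c z)) := by
    refine Hc_anti hμ _ fun z z' h => ?_
    simp only [Prod.mk.injEq] at h ⊢
    exact ⟨h.1.1, h.2, ((snd_eq_iff c z z').1 h.1.2).1⟩
  have h5 := IND c
  linarith

theorem sum_ind_mem {κ : Type} [Fintype κ] (s : Finset κ) :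
    ∑ u, ind (u ∈ s) = (s.card : ℝ) := by
  classical
  rw [← sum_subset (subset_univ s) (fun u _ hu => ind_of_not hu),
    sum_congr rfl fun u hu => ind_of hu]
  simp

theorem log_card_Cs (ω : W c) (k : Fin c.N) : Real.log ((Cs c ω k).card : ℝ)
    = Real.log 2 * (1 - ind ((Cs c ω k).card < 2)) := by
  have h1 := Cs_card c ω k
  have h2 := Cs_card_pos c ω k
  by_cases h : (Cs c ω k).card < 2
  · have h3 : (Cs c ω k).card = 1 := by omega
    rw [h3, ind_of (by norm_num)]
    simp
  · have h3 : (Cs c ω k).card = 2 := by omega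
    rw [h3, ind_of_not (by norm_num)]
    simp

theorem CB : Hc (mu c) (y1 c) (fun z => (fw c z, x1 c z))
    ≤ c.N * Real.log 2 - Real.log 2 * ex (mu c) (nbad c) := by
  have hμ := mu_prob c
  have h1 : ∀ k : Fin c.N, Hc (mu c) (fun z => y1 c z k) (fun z => (fw c z, x1 c z))
      ≤ Real.log 2 - Real.log 2 * ex (mu c) (bad c k) := by
    intro k
    have h := gibbs hμ (fun z => y1 c z k) (fun z => (fw c z, x1 c z))
      (fun z u => ind (u ∈ Cs c z.1 k) / ((Cs c z.1 k).card : ℝ)) one_pos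
      (fun z u => div_nonneg (ind_nonneg _) (Nat.cast_nonneg _))
      (fun z z' h => by
        simp only [Prod.mk.injEq] at h
        rw [Cs_congr c (ω := z.1) (ω' := z'.1) h.1 (congrFun h.2 k)])
      (fun z => by
        rw [← sum_div]
        rw [sum_ind_mem]
        exact div_self_le_one _)
      (fun z _ => by
        have a1 : y1 c z k ∈ Cs c z.1 k := self_mem_Cs c z.1 k
        rw [ind_of a1]
        have := Cs_card_pos c z.1 k
        positivity)
    rw [Real.log_one, add_zero] at h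
    refine h.trans (le_of_eq ?_)
    have e2 : Real.log 2 - Real.log 2 * ex (mu c) (bad c k)
        = ex (mu c) (fun z => Real.log 2 - Real.log 2 * bad c k z) := by
      rw [ex_sub, ex_const hμ, ex_smul]
    rw [e2]
    refine ex_congr hμ.1 fun z _ => ?_
    have a1 : y1 c z k ∈ Cs c z.1 k := self_mem_Cs c z.1 k
    rw [ind_of a1, one_div, Real.log_inv, neg_neg, log_card_Cs]
    unfold bad
    ring
  refine (Hc_pi_le hμ _ _).trans ((sum_le_sum fun k _ => h1 k).trans (le_of_eq ?_))
  rw [sum_sub_distrib, ← mul_sum, ← ex_sum]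
  simp only [sum_const, card_univ, Fintype.card_fin, nsmul_eq_mul]
  rfl

end

end Pool.Agent.helper15.FH
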