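import Pool.Agent.helper15.FH.YK
import Pool.Agent.helper15.FH.CHN
import Pool.Agent.helper70.FH.ZL
import Pool.Agent.helper61.FH.TT
import Pool.Agent.helper61.FH.DD
import Pool.Agent.helper54.FH.F1
import Pool.Agent.helper8.FH.LO
import Pool.Agent.helper8.FH.SL

set_option autoImplicit false

/-!
# The core theorem (MP_8af768_co): assembly and numerics
-/

namespace Pool.Agent.helper15.FH

open Finset Pool.Agent.helper32.Cant

noncomputable section

variable (c : Cfg)

/-! ### the assembly -/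

/-- abbreviations -/
def aa : ℝ := ex (mu c) (kd c)

def bb : ℝ := ex (mu c) (kv c)

def nb : ℝ := ex (mu c) (nbad c)

def TTt : ℝ := Hc (mu c) (fun z => z.2) (fun z => z.1)

def Smn : ℝ := ex (mu c) (fun z => ∑ k, mn c z.1 k)

def lM : ℝ := Real.log c.M

theorem lM_nonneg : 0 ≤ lM c := Real.log_nonneg (by exact_mod_cast M_pos c)

theorem cardX_pos : 0 < (Fintype.card c.X : ℝ) := by exact_mod_cast Fintype.card_pos

theorem cardW : (Fintype.card (W c) : ℝ) = (10 * (Fintype.card c.X : ℝ)) ^ c.N := by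
  rw [Fintype.card_fun, Fintype.card_prod, card_Y, Fintype.card_fin, mul_comm]
  push_cast
  rfl

theorem aa_nonneg : 0 ≤ aa c := ex_nonneg (mu_nonneg c) fun _ _ => sum_nonneg fun _ _ => ind_nonneg _

theorem bb_nonneg : 0 ≤ bb c := ex_nonneg (mu_nonneg c) fun _ _ => sum_nonneg fun _ _ => ind_nonneg _

theorem nb_nonneg : 0 ≤ nb c := ex_nonneg (mu_nonneg c) fun _ _ => sum_nonneg fun _ _ => ind_nonneg _

theorem aa_le : aa c ≤ c.N := by
  have h := sum_ex_ag c
  have h2 : 0 ≤ ∑ k, ex (mu c) (fun z => ind (ag c k z)) :=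
    sum_nonneg fun k _ => ex_nonneg (mu_nonneg c) fun _ _ => ind_nonneg _
  unfold aa
  linarith

theorem LL_eq : LL c = Real.log 5 + Real.log c.g - Real.log c.ρ := by
  unfold LL
  rw [Real.log_div (mul_pos (by norm_num) (g_pos c)).ne' (ρ_pos c).ne',
    Real.log_mul (by norm_num) (g_pos c).ne']

theorem log_card_W : Real.log (Fintype.card (W c))
    = c.N * (Real.log 10 + Real.log (Fintype.card c.X)) := by
  rw [cardW, Real.log_pow, Real.log_mul (by norm_num) (cardX_pos c).ne']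

theorem TT_eq : TTt c = HH (mu c) (fun z => z) - HH (mu c) (fun z => z.1) := by
  unfold TTt
  rw [Hc_eq (mu_prob c)]

theorem H12_ge : c.N * (Real.log (1 + c.ρ) - Real.log 5 - Real.log (Fintype.card c.X))
    + 2 * (c.N * (Real.log 10 + Real.log (Fintype.card c.X))) - lM c + LL c * bb c
      ≤ HH (mu c) (fun z => z) := by
  rw [HH_mu]
  have h := Zz_ge c
  have hX := cardX_pos c
  have hρ := ρ_pos c
  have hM : (0 : ℝ) < c.M := by exact_mod_cast M_pos c
  have h1 : (0 : ℝ) < ((1 + c.ρ) / (5 * Fintype.card c.X)) ^ c.N := by positivity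
  have h2 : (0 : ℝ) < (10 * (Fintype.card c.X : ℝ)) ^ (2 * c.N) := by positivity
  have h3 := Real.log_le_log (by positivity) h
  rw [Real.log_div (mul_pos h1 h2).ne' hM.ne', Real.log_mul h1.ne' h2.ne', Real.log_pow,
    Real.log_pow, Real.log_div (by positivity) (by positivity),
    Real.log_mul (by norm_num) hX.ne', Real.log_mul (by norm_num) hX.ne'] at h3
  push_cast at h3
  unfold lM bb
  linarith

theorem H1_le : HH (mu c) (fun z => z.1)
    ≤ c.N * (Real.log 10 + Real.log (Fintype.card c.X)) := by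
  rw [← log_card_W]
  exact HH_le_log (mu_prob c) (fun z : O c => z.1)

theorem log10 : Real.log 10 = Real.log 2 + Real.log 5 := by
  rw [← Real.log_mul (by norm_num) (by norm_num)]
  norm_num

theorem A_low : c.N * (Real.log 2 + Real.log (1 + c.ρ)) - lM c + LL c * bb c ≤ TTt c := by
  have h1 := H12_ge c
  have h2 := H1_le c
  have h3 := TT_eq c
  have h4 := log10
  rw [h4] at h1 h2
  nlinarith

theorem ab_le : (aa c - bb c) * Real.log c.ρ ≤ lM c := by
  have h1 := A_low c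
  have h2 : TTt c ≤ _ := TT c
  have h3 : Real.log (5 * c.g) = LL c + Real.log c.ρ := by
    rw [Real.log_mul (by norm_num) (g_pos c).ne', LL_eq]
    ring
  rw [h3] at h2
  unfold aa bb at *
  linarith

theorem H1_ge : c.N * (Real.log 10 + Real.log (Fintype.card c.X)) - lM c
    - (bb c - aa c) * Real.log c.ρ ≤ HH (mu c) (fun z => z.1) := by
  have h1 := H12_ge c
  have h2 : TTt c ≤ _ := TT c
  have h3 : Real.log (5 * c.g) = LL c + Real.log c.ρ := by
    rw [Real.log_mul (by norm_num) (g_pos c).ne', LL_eq]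
    ring
  have h4 := TT_eq c
  have h5 := log10
  rw [h3] at h2
  have h6 : TTt c ≤ c.N * (Real.log 2 + Real.log (1 + c.ρ)) - Real.log c.ρ * aa c
    + (LL c + Real.log c.ρ) * bb c := h2
  rw [h5] at h1 ⊢
  linarith

/-- defect of the conditional agreement probabilities -/
def RR : ℝ := ∑ k : Fin c.N, ex (mu c) (fun z => (rk c k z - 1 / (1 + c.ρ)) ^ 2)

theorem ref_x1 : Ref (x1 c) (fun z => z.1) := fun _ _ h => ((fst_eq_iff c _ _).1 h).1

theorem DDfst : Hc (mu c) (x2 c) (fun z => z.1) ≤ c.N * Real.log (1 + c.ρ)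
      + (Real.log c.g - Real.log c.ρ) * aa c - 1 / 4 * RR c :=
  DDgen c (fun z => z.1) (ref_x1 c)

theorem RR_nonneg : 0 ≤ RR c :=
  sum_nonneg fun _ _ => ex_nonneg (mu_nonneg c) fun _ _ => sq_nonneg _

theorem DDx1 : Hc (mu c) (x2 c) (x1 c) ≤ c.N * Real.log (1 + c.ρ)
      + (Real.log c.g - Real.log c.ρ) * aa c := by
  have h := DDgen c (x1 c) (fun _ _ h => h)
  have h2 : 0 ≤ ∑ k : Fin c.N, ex (mu c) (fun z =>
        (ce (mu c) (fun z => (x1 c z, pre (x2 c) k z)) (fun z => ind (ag c k z)) z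
          - 1 / (1 + c.ρ)) ^ 2) :=
    sum_nonneg fun _ _ => ex_nonneg (mu_nonneg c) fun _ _ => sq_nonneg _
  unfold aa
  linarith

theorem TT_split : TTt c = Hc (mu c) (x2 c) (fun z => z.1)
    + Hc (mu c) (y2 c) (fun z => (z.1, x2 c z)) := by
  unfold TTt
  rw [← Hc_pair (mu_prob c)]
  refine Hc_congr (fun _ _ => Iff.rfl) fun z z' => ?_
  rw [snd_eq_iff]
  simp only [Prod.mk.injEq]

theorem card_funY : Real.log (Fintype.card (Fin c.N → Y)) = c.N * Real.log 10 := by
  rw [Fintype.card_fun, card_Y, Fintype.card_fin]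
  push_cast
  rw [Real.log_pow]

theorem y2_le {α : Type} (X0 : O c → α) : Hc (mu c) (y2 c) X0 ≤ c.N * Real.log 10 := by
  rw [← card_funY]
  exact Hc_le_log (mu_prob c) (y2 c) X0 (y2 c) fun _ _ _ h => h

theorem ba_le : (bb c - aa c) * LL c ≤ (c.N - aa c) * Real.log 5 + lM c := by
  have h1 := A_low c
  have h2 := TT_split c
  have h3 := y2_le c (fun z => (z.1, x2 c z))
  have h4 := DDfst c
  have h5 := RR_nonneg c
  have h6 := LL_eq c
  have h7 := log10
  rw [h7] at h3
  have h8 : Real.log c.g - Real.log c.ρ = LL c - Real.log 5 := by linarith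
  rw [h8] at h4
  nlinarith

theorem Smn_le (h5 : Real.log 5 ≤ Real.log c.ρ) : Real.log c.g * Smn c
    ≤ c.N * Real.log 2 + lM c + (aa c - bb c) * LL c := by
  have h1 := A_low c
  have h2 : TTt c ≤ c.N * Real.log 20 + Real.log c.g * (aa c - Smn c) := FB1 c
  have h6 := LL_eq c
  have h7 : Real.log 20 = 2 * Real.log 2 + Real.log 5 := by
    rw [show (20 : ℝ) = 2 ^ 2 * 5 by norm_num, Real.log_mul (by norm_num) (by norm_num),
      Real.log_pow]
    push_cast
    ring
  have h8 := aa_le c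
  have h9 : Real.log c.ρ ≤ Real.log (1 + c.ρ) := Real.log_le_log (ρ_pos c) (by linarith)
  have hN := N_pos c
  rw [h7] at h2
  have h10 : Real.log c.g = LL c - Real.log 5 + Real.log c.ρ := by linarith
  have h11 : Real.log c.g * aa c = LL c * aa c + (Real.log c.ρ - Real.log 5) * aa c := by
    rw [h10]; ring
  have h12 : (Real.log c.ρ - Real.log 5) * aa c ≤ (Real.log c.ρ - Real.log 5) * c.N :=
    mul_le_mul_of_nonneg_left h8 (by linarith)
  nlinarith

theorem Smn_nonneg : 0 ≤ Smn c := by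
  refine ex_nonneg (mu_nonneg c) fun z _ => sum_nonneg fun k _ => ?_
  unfold mn fr
  have h1 := FF_pos c z.1
  unfold FF at h1
  have h2 : ∑ ω' : W c, ind (c.f ω' = c.f z.1 ∧ (ω' k).1 ≠ (z.1 k).1)
      ≤ ∑ ω' : W c, ind (c.f ω' = c.f z.1) := by
    refine sum_le_sum fun ω' _ => ?_
    by_cases h : c.f ω' = c.f z.1
    · rw [ind_of h]
      exact ind_le_one _
    · rw [ind_of_not h, ind_of_not (fun h' => h h'.1)]
  refine le_min (div_nonneg (sum_nonneg fun _ _ => ind_nonneg _) h1.le) ?_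
  rw [sub_nonneg, div_le_one h1]
  exact h2

/-- linearised square root -/
theorem sqrt_lin {t τ : ℝ} (ht : 0 ≤ t) (hτ : 0 < τ) : 2 * √t ≤ t / τ + τ := by
  have h := Real.sq_sqrt ht
  have h2 : 0 ≤ (√t - τ) ^ 2 := sq_nonneg _
  have h3 : 2 * √t * τ ≤ t + τ ^ 2 := by nlinarith
  rw [div_add' _ _ _ hτ.ne', le_div_iff₀ hτ]
  nlinarith

theorem mn_nonneg (ω : W c) (k : Fin c.N) : 0 ≤ mn c ω k := by
  unfold mn fr
  have h1 := FF_pos c ω
  unfold FF at h1
  have h2 : ∑ ω' : W c, ind (c.f ω' = c.f ω ∧ (ω' k).1 ≠ (ω k).1)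
      ≤ ∑ ω' : W c, ind (c.f ω' = c.f ω) := by
    refine sum_le_sum fun ω' _ => ?_
    by_cases h : c.f ω' = c.f ω
    · rw [ind_of h]
      exact ind_le_one _
    · rw [ind_of_not h, ind_of_not (fun h' => h h'.1)]
  refine le_min (div_nonneg (sum_nonneg fun _ _ => ind_nonneg _) h1.le) ?_
  rw [sub_nonneg, div_le_one h1]
  exact h2

theorem Hx1_le {τ : ℝ} (hτ : 0 < τ) : Hc (mu c) (x1 c) (fw c) ≤ Smn c / τ + c.N * τ := by
  have hμ := mu_prob c
  refine (FB2 c).trans ?_
  rw [← ex_smul]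
  have e : Smn c / τ + c.N * τ = ex (mu c) (fun z => ∑ k, (mn c z.1 k / τ + τ)) := by
    have e1 : (fun z : O c => ∑ k, (mn c z.1 k / τ + τ))
        = fun z => 1 / τ * (∑ k, mn c z.1 k) + c.N * τ := by
      funext z
      rw [sum_add_distrib, ← sum_div]
      simp only [sum_const, card_univ, Fintype.card_fin, nsmul_eq_mul]
      ring
    rw [e1, ex_add, ex_const hμ, ex_smul]
    unfold Smn
    ring
  rw [e]
  refine ex_mono hμ.1 fun z _ => ?_
  rw [mul_sum]
  exact sum_le_sum fun k _ => sqrt_lin (mn_nonneg c _ _) hτ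

/-- all error terms of the image and fibre entropies -/
def ss (τ : ℝ) : ℝ := 2 * lM c + (bb c - aa c) * Real.log c.ρ + (Smn c / τ + c.N * τ)

theorem H1_split : HH (mu c) (fun z => z.1) = HH (mu c) (fw c) + Hc (mu c) (x1 c) (fw c)
    + Hc (mu c) (y1 c) (fun z => (fw c z, x1 c z)) := by
  have hμ := mu_prob c
  have h : Hc (mu c) (x1 c) (fw c) + Hc (mu c) (y1 c) (fun z => (fw c z, x1 c z))
      = HH (mu c) (fun z => z.1) - HH (mu c) (fw c) := by
    rw [← Hc_pair hμ, Hc_eq hμ]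
    congr 1
    refine HH_congr fun z z' => ?_
    rw [fst_eq_iff]
    simp only [Prod.mk.injEq]
    constructor
    · exact fun h => h.2
    · intro h
      refine ⟨?_, h⟩
      have := (fst_eq_iff c z z').2 h
      unfold fw
      rw [this]
  linarith

theorem HHfw_le : HH (mu c) (fw c)
    ≤ c.N * (Real.log 5 + Real.log (Fintype.card c.X)) + lM c := by
  have h := HH_le_log (mu_prob c) (fw c)
  refine h.trans (le_of_eq ?_)
  have hM : (0 : ℝ) < c.M := by exact_mod_cast M_pos c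
  have hX := cardX_pos c
  rw [Fintype.card_prod, Fintype.card_fun, Fintype.card_prod, Fintype.card_fin,
    Fintype.card_fin, Fintype.card_fin]
  push_cast
  rw [Real.log_mul (by positivity) hM.ne', Real.log_pow, Real.log_mul hX.ne' (by norm_num)]
  unfold lM
  ring

theorem nb_le {τ : ℝ} (hτ : 0 < τ) : Real.log 2 * nb c ≤ ss c τ := by
  have h1 := H1_ge c
  have h2 := H1_split c
  have h3 := HHfw_le c
  have h4 := Hx1_le c hτ
  have h5 := CB c
  have h6 := log10
  rw [h6] at h1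
  unfold ss nb at *
  nlinarith

theorem y1_fw_ge {τ : ℝ} (hτ : 0 < τ) : c.N * Real.log 2 - ss c τ
    ≤ Hc (mu c) (y1 c) (fun z => (fw c z, x1 c z)) := by
  have h1 := H1_ge c
  have h2 := H1_split c
  have h3 := HHfw_le c
  have h4 := Hx1_le c hτ
  have h6 := log10
  rw [h6] at h1
  unfold ss
  nlinarith

theorem y1_x1_ge : c.N * Real.log 10 - lM c - (bb c - aa c) * Real.log c.ρ
    ≤ Hc (mu c) (y1 c) (x1 c) := by
  have hμ := mu_prob c
  have h1 := H1_ge c
  have h2 : Hc (mu c) (y1 c) (x1 c) = HH (mu c) (fun z => z.1) - HH (mu c) (x1 c) := by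
    rw [Hc_eq hμ]
    congr 1
    refine HH_congr fun z z' => ?_
    rw [fst_eq_iff]
    simp only [Prod.mk.injEq]
  have h3 := HH_le_log hμ (x1 c)
  have h4 : Real.log (Fintype.card (Fin c.N → c.X)) = c.N * Real.log (Fintype.card c.X) := by
    rw [Fintype.card_fun, Fintype.card_fin]
    push_cast
    rw [Real.log_pow]
  rw [h4] at h3
  linarith

/-- the error term of (10) and (11) -/
def s12 : ℝ := lM c + (aa c - bb c) * LL c + Real.log 10 * nb c

theorem x2_fst_ge : c.N * Real.log (1 + c.ρ) + (Real.log c.g - Real.log c.ρ) * aa c - s12 c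
    ≤ Hc (mu c) (x2 c) (fun z => z.1) := by
  have h1 := A_low c
  have h2 := TT_split c
  have h3 := YY c
  have h4 := LL_eq c
  have h5 := log10
  have h6 : Real.log c.g - Real.log c.ρ = LL c - Real.log 5 := by linarith
  have h7 : Hc (mu c) (y2 c) (fun z => (z.1, x2 c z))
    ≤ Real.log 10 * aa c + Real.log 2 * (c.N - aa c) + Real.log 10 * nb c := h3
  rw [h6]
  unfold s12
  have h8 : Real.log 10 * aa c = Real.log 2 * aa c + Real.log 5 * aa c := by rw [h5]; ring
  nlinarith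

theorem RR_le : 1 / 4 * RR c ≤ s12 c := by
  have h1 := x2_fst_ge c
  have h2 := DDfst c
  linarith

theorem I10_le : Hc (mu c) (x2 c) (x1 c) - Hc (mu c) (x2 c) (fun z => z.1) ≤ s12 c := by
  have h1 := x2_fst_ge c
  have h2 := DDx1 c
  linarith

/-- bound for the entropy of the sets -/
def kk (lam : ℝ) : ℝ := lM c + (aa c - bb c) * LL c + c.N * Real.log (1 + 1024 * lam)
  + 2 * Real.log (1 / lam) * nb c

theorem YE_ref : Ref (YE c) (fun z => (z.1, x2 c z)) := by
  intro z z' h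
  simp only [Prod.mk.injEq] at h
  funext k
  have e1 : ag c k z ↔ ag c k z' := by
    unfold ag x1
    rw [h.1, h.2]
  unfold YE
  rw [h.1]
  by_cases h4 : ag c k z
  · rw [if_pos h4, if_pos (e1.1 h4)]
  · rw [if_neg h4, if_neg (fun h => h4 (e1.2 h))]

theorem YE_le {lam : ℝ} (h0 : 0 < lam) (h1 : lam ≤ 1) :
    Hc (mu c) (YE c) (fun z => (x1 c z, x2 c z)) ≤ (c.N - aa c) * Real.log 5 + kk c lam := by
  have hμ := mu_prob c
  have h2 := KE c h0 h1
  have h3 := Hc_comm hμ (YE c) (fun z => (x1 c z, x2 c z)) (y2 c)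
  have h4 : Hc (mu c) (YE c) (fun z => ((x1 c z, x2 c z), y2 c z))
      = Hc (mu c) (YE c) (fun z => (x1 c z, z.2)) := by
    refine Hc_congr (fun z z' => ?_) fun z z' => ?_
    · simp only [Prod.mk.injEq, snd_eq_iff]
      tauto
    · simp only [Prod.mk.injEq, snd_eq_iff]
      tauto
  have h5 : Hc (mu c) (y2 c) (fun z => (z.1, x2 c z))
      ≤ Hc (mu c) (y2 c) (fun z => ((x1 c z, x2 c z), YE c z)) := by
    refine Hc_anti hμ _ fun z z' h => ?_
    have e1 := YE_ref c z z' h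
    simp only [Prod.mk.injEq] at h ⊢
    exact ⟨⟨((fst_eq_iff c z z').1 h.1).1, h.2⟩, e1⟩
  have h6 := y2_le c (fun z => (x1 c z, x2 c z))
  have h7 := TT_split c
  have h8 := A_low c
  have h9 := DDfst c
  have h10 := RR_nonneg c
  have h11 := LL_eq c
  have h12 := log10
  have h13 : Real.log c.g - Real.log c.ρ = LL c - Real.log 5 := by linarith
  rw [h13] at h9
  rw [h12] at h6
  unfold kk nb
  nlinarith

/-- total of the mean deviations of the conditional agreement probabilities -/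
def R1 : ℝ := ∑ k : Fin c.N, ex (mu c) (fun z => |rk c k z - 1 / (1 + c.ρ)|)

theorem R1_le {τ : ℝ} (hτ : 0 < τ) : 2 * R1 c ≤ RR c / τ + c.N * τ := by
  have hμ := mu_prob c
  have e : RR c / τ + c.N * τ = ∑ k : Fin c.N, ex (mu c) (fun z =>
      (1 / τ * (rk c k z - 1 / (1 + c.ρ)) ^ 2 + τ)) := by
    have e1 : ∀ k : Fin c.N, ex (mu c) (fun z => (1 / τ * (rk c k z - 1 / (1 + c.ρ)) ^ 2 + τ))
        = 1 / τ * ex (mu c) (fun z => (rk c k z - 1 / (1 + c.ρ)) ^ 2) + τ := by
      intro k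
      rw [ex_add, ex_smul, ex_const hμ]
    rw [sum_congr rfl fun k _ => e1 k, sum_add_distrib, ← mul_sum]
    simp only [sum_const, card_univ, Fintype.card_fin, nsmul_eq_mul]
    unfold RR
    ring
  rw [e]
  unfold R1
  rw [mul_sum]
  refine sum_le_sum fun k _ => ?_
  rw [← ex_smul]
  refine ex_mono hμ.1 fun z _ => ?_
  have h := sqrt_lin (sq_nonneg (rk c k z - 1 / (1 + c.ρ))) hτ
  rw [Real.sqrt_sq_eq_abs] at h
  refine h.trans (le_of_eq ?_)
  ring

theorem Na_ge : c.N * (1 / (1 + c.ρ)) - R1 c ≤ c.N - aa c := by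
  have hμ := mu_prob c
  have h1 : c.N - aa c = ∑ k, ex (mu c) (rk c k) := by
    unfold aa
    rw [← sum_ex_ag]
    refine sum_congr rfl fun k _ => ?_
    unfold rk
    exact (ex_ce hμ.1 _ _).symm
  have h2 : (c.N : ℝ) * (1 / (1 + c.ρ)) = ∑ k : Fin c.N, (1 / (1 + c.ρ)) := by
    simp
  rw [h1, h2]
  unfold R1
  rw [← sum_sub_distrib]
  refine sum_le_sum fun k _ => ?_
  have h3 := abs_ex_le hμ.1 (fun z => rk c k z - 1 / (1 + c.ρ))
  rw [ex_sub, ex_const hμ] at h3
  have h4 := neg_abs_le (ex (mu c) (rk c k) - 1 / (1 + c.ρ))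
  have h5 : ex (mu c) (fun z => rk c k z) = ex (mu c) (rk c k) := rfl
  rw [h5] at h3
  linarith

theorem Na_le : c.N - aa c ≤ c.N * (1 / (1 + c.ρ)) + R1 c := by
  have hμ := mu_prob c
  have h1 : c.N - aa c = ∑ k, ex (mu c) (rk c k) := by
    unfold aa
    rw [← sum_ex_ag]
    refine sum_congr rfl fun k _ => ?_
    unfold rk
    exact (ex_ce hμ.1 _ _).symm
  have h2 : (c.N : ℝ) * (1 / (1 + c.ρ)) = ∑ k : Fin c.N, (1 / (1 + c.ρ)) := by
    simp
  rw [h1, h2]
  unfold R1
  rw [← sum_add_distrib]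
  refine sum_le_sum fun k _ => ?_
  have h3 := abs_ex_le hμ.1 (fun z => rk c k z - 1 / (1 + c.ρ))
  rw [ex_sub, ex_const hμ] at h3
  have h4 := le_abs_self (ex (mu c) (rk c k) - 1 / (1 + c.ρ))
  have h5 : ex (mu c) (fun z => rk c k z) = ex (mu c) (rk c k) := rfl
  rw [h5] at h3
  linarith

/-- total entropy deficits of the `Y`-components -/
def D1 : ℝ := ∑ k : Fin c.N, (Real.log 10 - Hc (mu c) (fun z => y1 c z k) (GG c k))

def D2 : ℝ := ∑ k : Fin c.N, (Real.log 2
  - Hc (mu c) (fun z => y1 c z k) (fun z => (GG c k z, Cs c z.1 k)))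

theorem GG_ref2 (k : ℕ) : Ref (GG c k) (fun z => ((x1 c z, x2 c z), YE c z)) := by
  intro z z' h
  simp only [Prod.mk.injEq] at h
  unfold GG pre
  rw [h.1.1, h.1.2, h.2]

theorem D1_le {lam : ℝ} (h0 : 0 < lam) (h1 : lam ≤ 1) : D1 c ≤ lM c
    + (bb c - aa c) * Real.log c.ρ + s12 c + ((c.N - aa c) * Real.log 5 + kk c lam) := by
  have hμ := mu_prob c
  have h2 := YE_le c h0 h1
  have h3 := y1_x1_ge c
  have h4 := I10_le c
  have h5 := Hc_comm hμ (y1 c) (x1 c) (x2 c)
  have h6 : Hc (mu c) (x2 c) (fun z => (x1 c z, y1 c z)) = Hc (mu c) (x2 c) (fun z => z.1) := by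
    refine Hc_congr (fun z z' => ?_) fun z z' => ?_
    · simp only [Prod.mk.injEq, fst_eq_iff]
    · simp only [Prod.mk.injEq, fst_eq_iff]
  have h7 := Hc_comm hμ (y1 c) (fun z => (x1 c z, x2 c z)) (YE c)
  have h8 := Hc_nonneg hμ (YE c) (fun z => ((x1 c z, x2 c z), y1 c z))
  have h9 := Hc_pi hμ (y1 c) (fun z => ((x1 c z, x2 c z), YE c z))
  have h10 : ∑ k : Fin c.N, Hc (mu c) (fun z => y1 c z k)
      (fun z => (((x1 c z, x2 c z), YE c z), pre (y1 c) k z))
      ≤ ∑ k : Fin c.N, Hc (mu c) (fun z => y1 c z k) (GG c k) := by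
    refine sum_le_sum fun k _ => Hc_anti hμ _ fun z z' h => ?_
    simp only [Prod.mk.injEq] at h
    exact GG_ref2 c k z z' (by simp only [Prod.mk.injEq]; exact h.1)
  have h11 : D1 c = c.N * Real.log 10
      - ∑ k : Fin c.N, Hc (mu c) (fun z => y1 c z k) (GG c k) := by
    unfold D1
    rw [sum_sub_distrib]
    simp
  linarith

theorem YE_ref3 : Ref (YE c) (fun z => (fw c z, x1 c z, x2 c z)) := by
  intro z z' h
  simp only [Prod.mk.injEq] at h
  funext k
  have e1 : ag c k z ↔ ag c k z' := by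
    unfold ag
    rw [h.2.1, h.2.2]
  have e2 : Cs c z.1 k = Cs c z'.1 k := Cs_congr c h.1 (congrFun h.2.1 k)
  unfold YE
  rw [e2]
  by_cases h4 : ag c k z
  · rw [if_pos h4, if_pos (e1.1 h4)]
  · rw [if_neg h4, if_neg (fun h => h4 (e1.2 h))]

theorem D2_le {τ : ℝ} (hτ : 0 < τ) : D2 c ≤ ss c τ := by
  have hμ := mu_prob c
  have h1 := y1_fw_ge c hτ
  have h2 := IND2 c
  have h9 := Hc_pi hμ (y1 c) (fun z => (fw c z, x1 c z, x2 c z))
  have h10 : ∑ k : Fin c.N, Hc (mu c) (fun z => y1 c z k)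
      (fun z => ((fw c z, x1 c z, x2 c z), pre (y1 c) k z))
      ≤ ∑ k : Fin c.N, Hc (mu c) (fun z => y1 c z k) (fun z => (GG c k z, Cs c z.1 k)) := by
    refine sum_le_sum fun k _ => Hc_anti hμ _ fun z z' h => ?_
    simp only [Prod.mk.injEq] at h
    have e1 := YE_ref3 c z z' (by simp only [Prod.mk.injEq]; exact h.1)
    have e2 : Cs c z.1 k = Cs c z'.1 k := Cs_congr c h.1.1 (congrFun h.1.2.1 k)
    have e3 := GG_ref2 c k z z' (by simp only [Prod.mk.injEq]; exact ⟨h.1.2, e1⟩)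
    simp only [Prod.mk.injEq]
    exact ⟨e3, e2⟩
  have h11 : D2 c = c.N * Real.log 2 - ∑ k : Fin c.N, Hc (mu c) (fun z => y1 c z k)
      (fun z => (GG c k z, Cs c z.1 k)) := by
    unfold D2
    rw [sum_sub_distrib]
    simp
  linarith

theorem d1_nonneg (k : Fin c.N) : 0 ≤ Real.log 10 - Hc (mu c) (fun z => y1 c z k) (GG c k) := by
  have h := Hc_le_log (mu_prob c) (fun z => y1 c z k) (GG c k) (fun z => y1 c z k)
    fun _ _ _ h => h
  rw [card_Y] at h
  push_cast at h
  linarith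

theorem d2_nonneg (k : Fin c.N) : 0 ≤ Real.log 2
    - Hc (mu c) (fun z => y1 c z k) (fun z => (GG c k z, Cs c z.1 k)) := by
  classical
  have hμ := mu_prob c
  have h := gibbs hμ (fun z => y1 c z k) (fun z => (GG c k z, Cs c z.1 k))
      (fun z u => ind (u ∈ Cs c z.1 k) / ((Cs c z.1 k).card : ℝ)) one_pos
      (fun z u => div_nonneg (ind_nonneg _) (Nat.cast_nonneg _))
      (fun z z' h => by
        simp only [Prod.mk.injEq] at h
        rw [h.2])
      (fun z => by
        rw [← sum_div, sum_ind_mem]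
        exact div_self_le_one _)
      (fun z _ => by
        have a1 : y1 c z k ∈ Cs c z.1 k := self_mem_Cs c z.1 k
        rw [ind_of a1]
        have := Cs_card_pos c z.1 k
        positivity)
  rw [Real.log_one, add_zero] at h
  have h2 : ex (mu c) (fun ω => -Real.log (ind (y1 c ω k ∈ Cs c ω.1 k) / ((Cs c ω.1 k).card : ℝ)))
      ≤ ex (mu c) (fun _ => Real.log 2) := by
    refine ex_mono hμ.1 fun z _ => ?_
    have a1 : y1 c z k ∈ Cs c z.1 k := self_mem_Cs c z.1 k
    rw [ind_of a1, one_div, Real.log_inv, neg_neg, log_card_Cs]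
    have l2 : 0 ≤ Real.log 2 := Real.log_nonneg (by norm_num)
    have := mul_nonneg l2 (ind_nonneg ((Cs c z.1 k).card < 2))
    linarith
  rw [ex_const hμ] at h2
  linarith

theorem coll_le {τ τ' : ℝ} (hτ : 0 < τ) (hτ' : 0 < τ') : ∑ k, coll c k
    ≤ c.N / 10 + (D1 c / τ + c.N * τ) + (D2 c / τ' + c.N * τ') + 2 * nb c := by
  have h1 : ∀ k, coll c k ≤ 1 / 10
      + ((Real.log 10 - Hc (mu c) (fun z => y1 c z k) (GG c k)) / τ + τ)
      + ((Real.log 2 - Hc (mu c) (fun z => y1 c z k) (fun z => (GG c k z, Cs c z.1 k))) / τ'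
        + τ') + 2 * ex (mu c) (bad c k) := by
    intro k
    have h := Pool.Agent.helper8.FH.SLL c k
    have h2 := sqrt_lin (d1_nonneg c k) hτ
    have h3 := sqrt_lin (d2_nonneg c k) hτ'
    linarith
  refine (sum_le_sum fun k _ => h1 k).trans (le_of_eq ?_)
  have e1 : ∑ k : Fin c.N,
      ((Real.log 10 - Hc (mu c) (fun z => y1 c z k) (GG c k)) / τ + τ) = D1 c / τ + c.N * τ := by
    rw [sum_add_distrib, ← sum_div]
    simp only [sum_const, card_univ, Fintype.card_fin, nsmul_eq_mul]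
    rfl
  have e2 : ∑ k : Fin c.N,
      ((Real.log 2 - Hc (mu c) (fun z => y1 c z k) (fun z => (GG c k z, Cs c z.1 k))) / τ' + τ')
        = D2 c / τ' + c.N * τ' := by
    rw [sum_add_distrib, ← sum_div]
    simp only [sum_const, card_univ, Fintype.card_fin, nsmul_eq_mul]
    rfl
  rw [sum_add_distrib, sum_add_distrib, sum_add_distrib, e1, e2, ← mul_sum, ← ex_nbad]
  simp only [sum_const, card_univ, Fintype.card_fin, nsmul_eq_mul]
  unfold nb
  ring

theorem final_ineq {lam : ℝ} (h0 : 0 < lam) (h1 : lam ≤ 1) :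
    c.N - aa c ≤ kk c lam + s12 c + 5 / (1 + c.ρ) * (∑ k, coll c k) + 15 * R1 c := by
  have h2 := YE_le c h0 h1
  have h3 := I10_le c
  have h4 := CHN c
  have h5 := sum_le_sum fun k (_ : k ∈ (univ : Finset (Fin c.N))) => Pool.Agent.helper8.FH.LOC c k
  rw [sum_add_distrib, sum_add_distrib, ← mul_sum, ← mul_sum, ← mul_sum, sum_ex_ag] at h5
  unfold R1
  have h6 : (Real.log 5 + 1) * (c.N - aa c) = (c.N - aa c) * Real.log 5 + (c.N - aa c) := by ring
  have h7 : (Real.log 5 + 1) * (↑c.N - ex (mu c) (kd c))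
    = (c.N - aa c) * Real.log 5 + (c.N - aa c) := h6
  linarith

/-- no configuration has such parameters -/
theorem core (hρ : c.ρ = 9999) (hg : (10 : ℝ) ^ 30 ≤ Real.log c.g)
    (hM : lM c * (10 ^ 20 * (1 + LL c)) ≤ c.N) : False := by
  have hN := N_pos c
  have hl2a : (0.69 : ℝ) ≤ Real.log 2 := by
    have := Real.log_two_gt_d9
    linarith
  have hl2b : Real.log 2 ≤ (0.6932 : ℝ) := by
    have := Real.log_two_lt_d9
    linarith
  have hl5a : (1.5 : ℝ) ≤ Real.log 5 := by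
    have h := Real.log_le_log (by norm_num) (show (2 : ℝ) ^ 9 ≤ 5 ^ 4 by norm_num)
    rw [Real.log_pow, Real.log_pow] at h
    push_cast at h
    linarith
  have hl5b : Real.log 5 ≤ (1.62 : ℝ) := by
    have h := Real.log_le_log (by norm_num) (show (5 : ℝ) ^ 3 ≤ 2 ^ 7 by norm_num)
    rw [Real.log_pow, Real.log_pow] at h
    push_cast at h
    linarith
  have hlra : (8 : ℝ) ≤ Real.log c.ρ := by
    rw [hρ]
    have h := Real.log_le_log (by norm_num) (show (2 : ℝ) ^ 13 ≤ 9999 by norm_num)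
    rw [Real.log_pow] at h
    push_cast at h
    linarith
  have hlrb : Real.log c.ρ ≤ (10 : ℝ) := by
    rw [hρ]
    have h := Real.log_le_log (by norm_num) (show (9999 : ℝ) ≤ 2 ^ 14 by norm_num)
    rw [Real.log_pow] at h
    push_cast at h
    linarith
  have hLL := LL_eq c
  have hLL1 : (10 : ℝ) ^ 29 ≤ LL c := by
    have : (10 : ℝ) ^ 29 + 10 ≤ 10 ^ 30 := by norm_num
    linarith
  have hLL0 : 0 < LL c := lt_of_lt_of_le (by norm_num) hLL1
  have hlM := lM_nonneg c
  have h1 : lM c ≤ c.N * (1 / 10 ^ 20) := by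
    have : lM c * 10 ^ 20 ≤ lM c * (10 ^ 20 * (1 + LL c)) := by
      refine mul_le_mul_of_nonneg_left ?_ hlM
      nlinarith
    have h2 := this.trans hM
    rw [mul_one_div, le_div_iff₀ (by norm_num)]
    exact h2
  have h2 : lM c * LL c ≤ c.N * (1 / 10 ^ 20) := by
    have : lM c * LL c * 10 ^ 20 ≤ lM c * (10 ^ 20 * (1 + LL c)) := by
      nlinarith
    have h2 := this.trans hM
    rw [mul_one_div, le_div_iff₀ (by norm_num)]
    exact h2
  have hab := ab_le c
  have hu : (aa c - bb c) * LL c ≤ c.N * (1 / 10 ^ 20) := by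
    rcases le_or_gt 0 (aa c - bb c) with h | h
    · refine le_trans (mul_le_mul_of_nonneg_right ?_ hLL0.le) h2
      nlinarith
    · have : (aa c - bb c) * LL c ≤ 0 := by nlinarith
      have h3 : 0 ≤ (c.N : ℝ) * (1 / 10 ^ 20) := by positivity
      linarith
  have haN := aa_le c
  have ha0 := aa_nonneg c
  have hba := ba_le c
  have hv : (bb c - aa c) * Real.log c.ρ ≤ c.N * (1 / 10 ^ 20) := by
    rcases le_or_gt (bb c - aa c) 0 with h | h
    · have : (bb c - aa c) * Real.log c.ρ ≤ 0 := by nlinarith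
      have h3 : 0 ≤ (c.N : ℝ) * (1 / 10 ^ 20) := by positivity
      linarith
    · have h4 : (bb c - aa c) * LL c ≤ 2 * c.N := by
        have h5 : (c.N - aa c) * Real.log 5 ≤ c.N * 1.62 := by
          refine mul_le_mul (by linarith) hl5b (by linarith) hN.le
        have h6 : (c.N : ℝ) * (1 / 10 ^ 20) ≤ c.N * 0.1 :=
          mul_le_mul_of_nonneg_left (by norm_num) hN.le
        linarith
      have h7 : (bb c - aa c) * 10 ^ 29 ≤ (bb c - aa c) * LL c :=
        mul_le_mul_of_nonneg_left hLL1 h.le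
      have h8 : bb c - aa c ≤ c.N * (2 / 10 ^ 29) := by
        rw [← mul_div_assoc, le_div_iff₀ (by norm_num)]
        linarith
      calc (bb c - aa c) * Real.log c.ρ ≤ (bb c - aa c) * 10 :=
            mul_le_mul_of_nonneg_left hlrb h.le
        _ ≤ c.N * (2 / 10 ^ 29) * 10 := by linarith
        _ ≤ c.N * (1 / 10 ^ 20) := by
          rw [mul_assoc]
          exact mul_le_mul_of_nonneg_left (by norm_num) hN.le
  have hS := Smn_le c (by linarith)
  have hS0 := Smn_nonneg c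
  have hS2 : Smn c ≤ c.N * (1 / 10 ^ 30) := by
    have h3 : Real.log c.g * Smn c ≤ c.N := by
      have h6 : (c.N : ℝ) * (1 / 10 ^ 20) ≤ c.N * 0.1 :=
        mul_le_mul_of_nonneg_left (by norm_num) hN.le
      have h7 : (c.N : ℝ) * Real.log 2 ≤ c.N * 0.7 :=
        mul_le_mul_of_nonneg_left (by linarith) hN.le
      linarith
    have h4 : 10 ^ 30 * Smn c ≤ Real.log c.g * Smn c := mul_le_mul_of_nonneg_right hg hS0
    rw [mul_one_div, le_div_iff₀ (by norm_num)]
    linarith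
  have hss : ss c (1 / 10 ^ 15) ≤ c.N * (3 / 10 ^ 15) := by
    unfold ss
    have h3 : Smn c / (1 / 10 ^ 15) ≤ c.N * (1 / 10 ^ 15) := by
      rw [div_div_eq_mul_div, div_one]
      calc Smn c * 10 ^ 15 ≤ c.N * (1 / 10 ^ 30) * 10 ^ 15 :=
            mul_le_mul_of_nonneg_right hS2 (by norm_num)
        _ = c.N * (1 / 10 ^ 15) := by ring
    have h6 : 3 * ((c.N : ℝ) * (1 / 10 ^ 20)) ≤ c.N * (1 / 10 ^ 15) := by
      rw [mul_left_comm]
      exact mul_le_mul_of_nonneg_left (by norm_num) hN.le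
    linarith
  have hnb := nb_le c (show (0 : ℝ) < 1 / 10 ^ 15 by positivity)
  have hnb0 := nb_nonneg c
  have hnb2 : nb c ≤ c.N * (5 / 10 ^ 15) := by
    have : 0.69 * nb c ≤ Real.log 2 * nb c := mul_le_mul_of_nonneg_right hl2a hnb0
    have h6 : (c.N : ℝ) * (3 / 10 ^ 15) ≤ 0.69 * (c.N * (5 / 10 ^ 15)) := by
      rw [mul_left_comm]
      exact mul_le_mul_of_nonneg_left (by norm_num) hN.le
    linarith
  have hl10 := log10
  have hs12 : s12 c ≤ c.N * (2 / 10 ^ 14) := by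
    unfold s12
    have h3 : Real.log 10 * nb c ≤ 2.4 * nb c :=
      mul_le_mul_of_nonneg_right (by rw [hl10]; linarith) hnb0
    have h4 : 2 * ((c.N : ℝ) * (1 / 10 ^ 20)) + 2.4 * (c.N * (5 / 10 ^ 15))
        ≤ c.N * (2 / 10 ^ 14) := by
      linarith
    linarith
  have hRR := RR_le c
  have hR1 := R1_le c (show (0 : ℝ) < 1 / 10 ^ 6 by positivity)
  have hR2 : R1 c ≤ c.N * (54 / 10 ^ 8) := by
    have h3 : RR c / (1 / 10 ^ 6) ≤ c.N * (8 / 10 ^ 8) := by
      rw [div_div_eq_mul_div, div_one]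
      have h4 : RR c ≤ c.N * (8 / 10 ^ 14) := by linarith
      calc RR c * 10 ^ 6 ≤ c.N * (8 / 10 ^ 14) * 10 ^ 6 :=
            mul_le_mul_of_nonneg_right h4 (by norm_num)
        _ = c.N * (8 / 10 ^ 8) := by ring
    linarith
  have hl0 : (0 : ℝ) < 1 / 10 ^ 10 := by positivity
  have hl1 : (1 / 10 ^ 10 : ℝ) ≤ 1 := by norm_num
  have hkk : kk c (1 / 10 ^ 10) ≤ c.N * (103 / 10 ^ 9) := by
    unfold kk
    have h3 : Real.log (1 + 1024 * (1 / 10 ^ 10)) ≤ 1024 * (1 / 10 ^ 10) := by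
      have := Real.log_le_sub_one_of_pos (show (0 : ℝ) < 1 + 1024 * (1 / 10 ^ 10) by positivity)
      linarith
    have h4 : Real.log (1 / (1 / 10 ^ 10)) ≤ 24 := by
      rw [one_div_one_div, Real.log_pow, hl10]
      push_cast
      linarith
    have h5 : (c.N : ℝ) * Real.log (1 + 1024 * (1 / 10 ^ 10)) ≤ c.N * (1024 * (1 / 10 ^ 10)) :=
      mul_le_mul_of_nonneg_left h3 hN.le
    have h6 : 2 * Real.log (1 / (1 / 10 ^ 10)) * nb c ≤ 48 * nb c :=
      mul_le_mul_of_nonneg_right (by linarith) hnb0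
    have h7 : 2 * ((c.N : ℝ) * (1 / 10 ^ 20)) + c.N * (1024 * (1 / 10 ^ 10))
        + 48 * (c.N * (5 / 10 ^ 15)) ≤ c.N * (103 / 10 ^ 9) := by
      rw [mul_left_comm 2, mul_left_comm 48, ← mul_add, ← mul_add]
      exact mul_le_mul_of_nonneg_left (by norm_num) hN.le
    linarith
  have hD1 := D1_le c hl0 hl1
  have hNa := Na_le c
  have hNa' := Na_ge c
  have hσ : 1 / (1 + c.ρ) = 1 / 10 ^ 4 := by rw [hρ]; norm_num
  rw [hσ] at hNa hNa'
  have hD1' : D1 c ≤ c.N * (164 / 10 ^ 6) := by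
    have h3 : (c.N - aa c) * Real.log 5 ≤ (c.N * (1 / 10 ^ 4) + R1 c) * 1.62 :=
      mul_le_mul hNa hl5b (by linarith) (by linarith)
    have h7 : 2 * ((c.N : ℝ) * (1 / 10 ^ 20)) + c.N * (2 / 10 ^ 14)
        + (c.N * (1 / 10 ^ 4) + c.N * (54 / 10 ^ 8)) * 1.62 + c.N * (103 / 10 ^ 9)
          ≤ c.N * (164 / 10 ^ 6) := by
      linarith
    linarith
  have hD2 := D2_le c (show (0 : ℝ) < 1 / 10 ^ 15 by positivity)
  have hcoll := coll_le c (show (0 : ℝ) < 1 / 50 by positivity)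
    (show (0 : ℝ) < 1 / 10 ^ 7 by positivity)
  have hcoll2 : ∑ k, coll c k ≤ c.N * (1283 / 10 ^ 4) := by
    have h3 : D1 c / (1 / 50) ≤ c.N * (82 / 10 ^ 4) := by
      rw [div_div_eq_mul_div, div_one]
      linarith
    have h4 : D2 c / (1 / 10 ^ 7) ≤ c.N * (3 / 10 ^ 8) := by
      rw [div_div_eq_mul_div, div_one]
      linarith
    linarith
  have hfin := final_ineq c hl0 hl1
  have hσ2 : 5 / (1 + c.ρ) = 5 / 10 ^ 4 := by rw [hρ]; norm_num
  rw [hσ2] at hfin
  linarith

end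

end Pool.Agent.helper15.FH
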