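import Pool.Agent.helper15.FH.Graph
import Pool.Agent.helper32.Cant.Basic
import Pool.Agent.helper72.Cant.ENT

set_option autoImplicit false

/-!
# Fractional homomorphisms and semiring-homomorphic invariants (MP_8af768_co): definitions
-/

namespace Pool.Agent.helper15.FH

open Finset Pool.Agent.helper32.Cant

/-! ### the configurations of the core theorem -/

/-- the vertices of two pentagons -/
abbrev Y : Type := Bool × ZMod 5

/-- compatible: in the same pentagon, equal or neighbours -/
def cY (u u' : Y) : Prop := u.1 = u'.1 ∧ (u'.2 = u.2 ∨ u'.2 = u.2 + 1 ∨ u.2 = u'.2 + 1)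

/-- compatibility in the source graph -/
def cG {X : Type} (Γ : SimpleGraph X) (p q : X × Y) : Prop :=
  Γ.Adj p.1 q.1 ∨ (p.1 = q.1 ∧ cY p.2 q.2)

/-- compatibility in the target graph -/
def cH {X : Type} (Γ : SimpleGraph X) (p q : X × Fin 5) : Prop :=
  Γ.Adj p.1 q.1 ∨ p = q

/-- `Γ` is `g`-regular, triangle-free and its least eigenvalue is at least `-g/ρ` (in Gram form) -/
structure Good (X : Type) [Fintype X] (Γ : SimpleGraph X) (g : ℕ) (ρ : ℝ) : Prop where
  reg : ∀ x, ∑ x', ind (Γ.Adj x x') = (g : ℝ)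
  tf : ∀ x y z, Γ.Adj x y → Γ.Adj y z → Γ.Adj x z → False
  gram : ∃ (R : Type) (_ : Fintype R) (ψ : R → X → ℝ), ∀ x x',
    ind (x = x') + ρ / g * ind (Γ.Adj x x')
      = (1 + ρ) / (Fintype.card X : ℝ) + ∑ r, ψ r x * ψ r x'

/-- A configuration: a good graph and a map between powers of the two graphs with labels. -/
structure Cfg where
  /-- the vertices -/
  X : Type
  fX : Fintype X
  /-- the good graph -/
  Γ : SimpleGraph X
  /-- its degree -/
  g : ℕ
  /-- the parameter of the least eigenvalue -/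
  ρ : ℝ
  /-- the exponent -/
  N : ℕ
  /-- the number of labels -/
  M : ℕ
  /-- the map -/
  f : (Fin N → X × Y) → (Fin N → X × Fin 5) × Fin M
  hX : Nonempty X
  hN : 0 < N
  hg : 0 < g
  hρ : 1 < ρ
  hρg : ρ ≤ g
  good : Good X Γ g ρ
  hom : ∀ ω ω', (f ω).2 = (f ω').2 → (∀ l, cH Γ ((f ω).1 l) ((f ω').1 l)) →
    ∀ k, cG Γ (ω k) (ω' k)

instance (c : Cfg) : Fintype c.X := c.fX
instance (c : Cfg) : Nonempty c.X := c.hX

noncomputable section

open Classical

/-- the vertices of the power of the source -/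
abbrev W (c : Cfg) : Type := Fin c.N → c.X × Y

/-- the sample space: pairs of vertices -/
abbrev O (c : Cfg) : Type := W c × W c

/-- the first component of the image -/
def vv (c : Cfg) (ω : W c) : Fin c.N → c.X × Fin 5 := (c.f ω).1

/-- the label -/
def mm (c : Cfg) (ω : W c) : Fin c.M := (c.f ω).2

/-- the kernel on one coordinate -/
def bw (c : Cfg) (p q : c.X × Fin 5) : ℝ :=
  ind (p = q) + c.ρ / (5 * c.g) * ind (c.Γ.Adj p.1 q.1)

/-- the kernel on pairs of source vertices -/
def Bw (c : Cfg) (ω ω' : W c) : ℝ :=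
  ind (mm c ω = mm c ω') * ∏ l, bw c (vv c ω l) (vv c ω' l)

/-- the normalisation -/
def Zz (c : Cfg) : ℝ := ∑ ω : W c, ∑ ω' : W c, Bw c ω ω'

/-- the law on pairs -/
def mu (c : Cfg) (z : O c) : ℝ := Bw c z.1 z.2 / Zz c

/-- number of source coordinates with different positions -/
def kd (c : Cfg) (z : O c) : ℝ := ∑ k, ind ((z.1 k).1 ≠ (z.2 k).1)

/-- number of target coordinates which differ -/
def kv (c : Cfg) (z : O c) : ℝ := ∑ l, ind (vv c z.1 l ≠ vv c z.2 l)

/-- positions of the first vertex -/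
def x1 (c : Cfg) (z : O c) : Fin c.N → c.X := fun k => (z.1 k).1

/-- positions of the second vertex -/
def x2 (c : Cfg) (z : O c) : Fin c.N → c.X := fun k => (z.2 k).1

/-- `Y`-components of the first vertex -/
def y1 (c : Cfg) (z : O c) : Fin c.N → Y := fun k => (z.1 k).2

/-- `Y`-components of the second vertex -/
def y2 (c : Cfg) (z : O c) : Fin c.N → Y := fun k => (z.2 k).2

/-- the image of the first vertex -/
def fw (c : Cfg) (z : O c) : (Fin c.N → c.X × Fin 5) × Fin c.M := c.f z.1

/-- the set of `Y`-components at the place `k` over the fibre of `ω`, with the same position -/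
def Cs (c : Cfg) (ω : W c) (k : Fin c.N) : Finset Y :=
  univ.filter fun u => ∃ ω' : W c, c.f ω' = c.f ω ∧ (ω' k).1 = (ω k).1 ∧ (ω' k).2 = u

/-- the place `k` is bad -/
def bad (c : Cfg) (k : Fin c.N) (z : O c) : ℝ := ind ((Cs c z.1 k).card < 2)

/-- number of bad places -/
def nbad (c : Cfg) (z : O c) : ℝ := ∑ k, bad c k z

/-- fraction of the fibre of `ω` whose position at `k` differs from that of `ω` -/
def fr (c : Cfg) (ω : W c) (k : Fin c.N) : ℝ :=
  (∑ ω' : W c, ind (c.f ω' = c.f ω ∧ (ω' k).1 ≠ (ω k).1)) / (∑ ω' : W c, ind (c.f ω' = c.f ω))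

/-- the minority fraction at `k` on the fibre of `ω` -/
def mn (c : Cfg) (ω : W c) (k : Fin c.N) : ℝ := min (fr c ω k) (1 - fr c ω k)

/-- agreement of the positions at `k` -/
def ag (c : Cfg) (k : Fin c.N) (z : O c) : Prop := x1 c z k = x2 c z k

/-- the set `Cs` at `k` if the positions agree -/
def YE (c : Cfg) (z : O c) (k : Fin c.N) : Option (Finset Y) :=
  if ag c k z then some (Cs c z.1 k) else none

/-- the entries before the place `k` -/
def pre {Ω α : Type} {n : ℕ} (A : Ω → Fin n → α) (k : ℕ) (z : Ω) : Fin n → Option α :=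
  fun i => if (i : ℕ) < k then some (A z i) else none

/-- the past before the place `k` -/
def GG (c : Cfg) (k : ℕ) (z : O c) :
    (Fin c.N → c.X) × (Fin c.N → Option c.X) × (Fin c.N → Option (Option (Finset Y))) :=
  (x1 c z, pre (x2 c) k z, pre (YE c) k z)

/-- entropy of an observable (natural logarithms) -/
def HH {Ω : Type} [Fintype Ω] {α : Type} (μ : Ω → ℝ) (X : Ω → α) : ℝ :=
  ex μ (fun ω => - Real.log (pm μ X ω))

/-- `log (1/θ)` -/
def LL (c : Cfg) : ℝ := Real.log (5 * c.g / c.ρ)

/-- the conditional probability of agreement at `k`, given the first vertex and the earlier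
positions of the second -/
def rk (c : Cfg) (k : Fin c.N) (z : O c) : ℝ :=
  ce (mu c) (fun z => (z.1, pre (x2 c) k z)) (fun z => ind (ag c k z)) z

/-- collision probability of `Cs` at `k` given the past -/
def coll (c : Cfg) (k : Fin c.N) : ℝ :=
  ex (mu c) (fun z => pm (mu c) (fun z => (GG c k z, Cs c z.1 k)) z / pm (mu c) (GG c k) z)

end

end Pool.Agent.helper15.FH
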