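import Pool.Agent.helper15.FH.Base

set_option autoImplicit false

/-!
# Entropy basics (MP_8af768_co)
-/

namespace Pool.Agent.helper15.FH

open Finset Pool.Agent.helper32.Cant

noncomputable section

section EN

variable {Ω : Type} [Fintype Ω] {α β γ ζ : Type} {μ : Ω → ℝ}

theorem HH_congr {X : Ω → α} {Y : Ω → β} (h : ∀ ω ω', X ω = X ω' ↔ Y ω = Y ω') :
    HH μ X = HH μ Y := by
  unfold HH
  rw [pm_congr h]

theorem Hc_eq (hμ : IsProb μ) (Z : Ω → ζ) (X : Ω → α) :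
    Hc μ Z X = HH μ (fun ω => (X ω, Z ω)) - HH μ X := by
  unfold Hc HH
  rw [← ex_sub]
  refine ex_congr hμ.1 fun ω hω => ?_
  rw [Real.log_div (pm_pos hμ.1 X hω).ne' (pm_pos hμ.1 (fun y => (X y, Z y)) hω).ne']
  ring

theorem HH_unit (hμ : IsProb μ) : HH μ (fun _ => ()) = 0 := by
  unfold HH
  have h : ∀ ω, pm μ (fun _ => ()) ω = 1 := by
    intro ω
    unfold pm
    rw [← hμ.2]
    exact sum_congr rfl fun y _ => by rw [ind_of rfl, mul_one]
  unfold ex
  exact sum_eq_zero fun ω _ => by simp only [h]; simp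

theorem HH_eq_Hc (hμ : IsProb μ) (X : Ω → α) : HH μ X = Hc μ X (fun _ => ()) := by
  rw [Hc_eq hμ, HH_unit hμ, sub_zero]
  exact HH_congr fun ω ω' => by simp

theorem HH_le_log [Fintype α] (hμ : IsProb μ) (X : Ω → α) :
    HH μ X ≤ Real.log (Fintype.card α) := by
  rw [HH_eq_Hc hμ]
  exact Hc_le_log hμ X _ X fun _ _ _ h => h

theorem Hc_pair (hμ : IsProb μ) (Z : Ω → ζ) (V : Ω → γ) (X : Ω → α) :
    Hc μ (fun ω => (Z ω, V ω)) X = Hc μ Z X + Hc μ V (fun ω => (X ω, Z ω)) := by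
  rw [Hc_eq hμ, Hc_eq hμ, Hc_eq hμ]
  have h : HH μ (fun ω => (X ω, Z ω, V ω)) = HH μ (fun ω => ((X ω, Z ω), V ω)) :=
    HH_congr fun ω ω' => by simp only [Prod.mk.injEq]; tauto
  rw [h]
  ring

theorem Hc_ref (hμ : IsProb μ) {Z : Ω → ζ} {X : Ω → α} (h : Ref Z X) : Hc μ Z X = 0 := by
  rw [Hc_eq hμ]
  have h : HH μ (fun ω => (X ω, Z ω)) = HH μ X := HH_congr fun ω ω' => by
    simp only [Prod.mk.injEq]
    exact ⟨fun a => a.1, fun a => ⟨a, h _ _ a⟩⟩
  rw [h, sub_self]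

theorem Hc_mono_left (hμ : IsProb μ) {Z : Ω → ζ} {V : Ω → γ} {X : Ω → α}
    (h : Ref Z (fun ω => (X ω, V ω))) : Hc μ Z X ≤ Hc μ V X := by
  have h1 : Hc μ V X = Hc μ (fun ω => (Z ω, V ω)) X := by
    refine Hc_congr (fun _ _ => Iff.rfl) fun ω ω' => ?_
    simp only [Prod.mk.injEq]
    exact ⟨fun a => ⟨a.1, h ω ω' (by simp [a.1, a.2]), a.2⟩, fun a => ⟨a.1, a.2.2⟩⟩
  rw [h1, Hc_pair hμ]
  have := Hc_nonneg hμ V (fun ω => (X ω, Z ω))
  linarith

omit [Fintype Ω] in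
theorem pre_succ_iff {n : ℕ} (Z : Ω → Fin n → ζ) (k : Fin n) (ω ω' : Ω) :
    pre Z ((k : ℕ) + 1) ω = pre Z ((k : ℕ) + 1) ω' ↔
      pre Z (k : ℕ) ω = pre Z (k : ℕ) ω' ∧ Z ω k = Z ω' k := by
  unfold pre
  constructor
  · intro h
    constructor
    · funext i
      have := congrFun h i
      by_cases hi : (i : ℕ) < k
      · rw [if_pos (by omega), if_pos (by omega)] at this
        rw [if_pos hi, if_pos hi, this]
      · rw [if_neg hi, if_neg hi]
    · have := congrFun h k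
      simpa using this
  · rintro ⟨h1, h2⟩
    funext i
    have := congrFun h1 i
    by_cases hi : (i : ℕ) < k
    · rw [if_pos hi, if_pos hi] at this
      rw [if_pos (by omega), if_pos (by omega), this]
    · by_cases hik : i = k
      · subst hik
        simp [h2]
      · have : (i : ℕ) ≠ k := fun h => hik (Fin.ext h)
        rw [if_neg (by omega), if_neg (by omega)]

omit [Fintype Ω] in
theorem pre_top_iff {n : ℕ} (Z : Ω → Fin n → ζ) (ω ω' : Ω) :
    pre Z n ω = pre Z n ω' ↔ Z ω = Z ω' := by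
  unfold pre
  constructor
  · intro h
    funext i
    have := congrFun h i
    simpa using this
  · intro h
    rw [h]

theorem Hc_pi {n : ℕ} (hμ : IsProb μ) (Z : Ω → Fin n → ζ) (X : Ω → α) :
    Hc μ Z X = ∑ k : Fin n, Hc μ (fun ω => Z ω k) (fun ω => (X ω, pre Z k ω)) := by
  set T : ℕ → ℝ := fun j => HH μ (fun ω => (X ω, pre Z j ω)) with hT
  have h0 : T 0 = HH μ X := HH_congr fun ω ω' => by
    simp only [Prod.mk.injEq]
    refine ⟨fun a => a.1, fun a => ⟨a, ?_⟩⟩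
    funext i
    simp [pre]
  have hn : T n = HH μ (fun ω => (X ω, Z ω)) := HH_congr fun ω ω' => by
    simp only [Prod.mk.injEq]
    rw [pre_top_iff]
  have hk : ∀ k : Fin n, Hc μ (fun ω => Z ω k) (fun ω => (X ω, pre Z k ω))
      = T ((k : ℕ) + 1) - T k := by
    intro k
    rw [Hc_eq hμ]
    congr 1
    refine HH_congr fun ω ω' => ?_
    simp only [Prod.mk.injEq]
    rw [pre_succ_iff]
    tauto
  rw [Hc_eq hμ, sum_congr rfl fun k _ => hk k,
    Fin.sum_univ_eq_sum_range (fun j => T (j + 1) - T j) n, sum_range_sub, h0, hn]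

theorem Hc_pi_le {n : ℕ} (hμ : IsProb μ) (Z : Ω → Fin n → ζ) (X : Ω → α) :
    Hc μ Z X ≤ ∑ k : Fin n, Hc μ (fun ω => Z ω k) X := by
  rw [Hc_pi hμ]
  exact sum_le_sum fun k _ => Hc_anti hμ _ fun ω ω' h => congrArg Prod.fst h

end EN

end

end Pool.Agent.helper15.FH
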