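import Pool.Agent.helper15.FH.Core
import Pool.Agent.helper64.FH.B1
import Pool.Agent.helper27.FH.S1
import Pool.Agent.helper46.FH.S2a

set_option autoImplicit false

/-!
# Fractional homomorphisms and semiring-homomorphic invariants (MP_8af768_co): conclusion
-/

namespace Pool.Agent.helper15.FH

open Finset Pool.Agent.helper32.Cant

/-- the source graph: the lexicographic product of the complement of `Γ` with the join of two
pentagons -/
def GX {X : Type} [Finite X] (Γ : SimpleGraph X) : FinGraph where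
  V := X × Y
  fin := inferInstance
  G :=
    { Adj := fun p q => ¬ cG Γ p q
      symm := ⟨fun _ _ h h' => h (cG_symm h')⟩
      loopless := ⟨fun p h => h (cG_refl Γ p)⟩ }

/-- the target graph: the lexicographic product of the complement of `Γ` with the complete graph
on five vertices -/
def HX {X : Type} [Finite X] (Γ : SimpleGraph X) : FinGraph where
  V := X × Fin 5
  fin := inferInstance
  G :=
    { Adj := fun p q => ¬ cH Γ p q
      symm := ⟨fun _ _ h h' => h (cH_symm h')⟩
      loopless := ⟨fun p h => h (cH_refl Γ p)⟩ }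

/-- the two colours of a vertex of the two pentagons -/
def col (u : Y) (s : Fin 2) : ZMod 5 := if s = 0 then u.2 else u.2 - 1

theorem col_ne : ∀ i j : ZMod 5, ∀ s t : Fin 2, ¬ (j = i ∨ j = i + 1 ∨ i = j + 1) →
    (if s = 0 then i else i - 1) ≠ (if t = 0 then j else j - 1) := by
  decide

theorem col_ne2 : ∀ i : ZMod 5, ∀ s t : Fin 2, s ≠ t →
    (if s = 0 then i else i - 1) ≠ (if t = 0 then i else i - 1) := by
  decide

theorem bool_ne : ∀ b b' : Bool, b ≠ b' →
    (if b = true then (0 : Fin 2) else 1) ≠ if b' = true then 0 else 1 := by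
  decide

/-- the two-fold colouring -/
theorem hom_blow {X : Type} [Finite X] (Γ : SimpleGraph X) :
    Hom (blow (GX Γ) 2) (blow (HX Γ) 2) := by
  refine ⟨⟨fun p => ((p.1.1, (ZMod.finEquiv 5).symm (col p.1.2 p.2)),
    if p.1.2.1 = true then 0 else 1), ?_⟩⟩
  rintro ⟨⟨x, b, i⟩, s⟩ ⟨⟨x', b', i'⟩, s'⟩ h
  have h' : (¬ cG Γ (x, (b, i)) (x', (b', i'))) ∨ ((x, (b, i)) = (x', (b', i')) ∧ s ≠ s') := h
  show (¬ cH Γ (x, (ZMod.finEquiv 5).symm (col (b, i) s))
      (x', (ZMod.finEquiv 5).symm (col (b', i') s')))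
    ∨ ((x, (ZMod.finEquiv 5).symm (col (b, i) s)) = (x', (ZMod.finEquiv 5).symm (col (b', i') s'))
      ∧ (if b = true then (0 : Fin 2) else 1) ≠ if b' = true then 0 else 1)
  have hcol : ∀ {u u' : Y} {t t' : Fin 2}, u.1 = u'.1 → col u t ≠ col u' t' →
      ¬ cH Γ (x, (ZMod.finEquiv 5).symm (col u t)) (x, (ZMod.finEquiv 5).symm (col u' t')) := by
    intro u u' t t' _ hne hc
    rcases hc with hc | hc
    · exact Γ.irrefl hc
    · exact hne ((ZMod.finEquiv 5).symm.injective (congrArg Prod.snd hc))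
  rcases h' with h' | ⟨h1, h2⟩
  · unfold cG at h'
    push Not at h'
    obtain ⟨h3, h4⟩ := h'
    by_cases hx : x = x'
    · subst hx
      have h5 := h4 rfl
      by_cases hb : b = b'
      · subst hb
        left
        refine hcol rfl ?_
        refine col_ne i i' s s' fun h6 => h5 ⟨rfl, ?_⟩
        rcases h6 with h6 | h6 | h6
        · exact Or.inl h6
        · exact Or.inr (Or.inl h6)
        · exact Or.inr (Or.inr h6)
      · by_cases hc : col (b, i) s = col (b', i') s'
        · right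
          exact ⟨by rw [hc], bool_ne b b' hb⟩
        · left
          intro hc'
          rcases hc' with hc' | hc'
          · exact Γ.irrefl hc'
          · exact hc ((ZMod.finEquiv 5).symm.injective (congrArg Prod.snd hc'))
    · left
      intro hc
      rcases hc with hc | hc
      · exact h3 hc
      · exact hx (congrArg Prod.fst hc)
  · simp only [Prod.mk.injEq] at h1
    obtain ⟨rfl, rfl, rfl⟩ := h1
    left
    exact hcol rfl (col_ne2 i s s' h2)

/-- no homomorphism between powers with few labels -/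
theorem no_hom {X : Type} [Fintype X] [Nonempty X] (Γ : SimpleGraph X) (g : ℕ)
    (hgood : Good X Γ g 9999) (hρg : (9999 : ℝ) ≤ g) (hg : 0 < g)
    (hL : (10 : ℝ) ^ 30 ≤ Real.log g) (N M : ℕ) (hN : 1 ≤ N)
    (hM : (M : ℝ) ≤ Real.exp (1 / (10 ^ 20 * (1 + Real.log (5 * g / 9999)))) ^ N) :
    ¬ Hom (pw (GX Γ) N) (disj (complete M) (pw (HX Γ) N)) := by
  rintro ⟨φ⟩
  set ff : (Fin N → X × Y) → (Fin N → X × Fin 5) × Fin M :=
    fun ω => ((φ ω).2, (φ ω).1) with hff
  have hhom : ∀ ω ω', (ff ω).2 = (ff ω').2 → (∀ l, cH Γ ((ff ω).1 l) ((ff ω').1 l)) →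
      ∀ k, cG Γ (ω k) (ω' k) := by
    intro ω ω' h1 h2 k
    by_contra hk
    have h3 : (pw (GX Γ) N).G.Adj ω ω' := ⟨k, hk⟩
    have h4 := φ.map_adj h3
    rcases h4 with h4 | ⟨l, h4⟩
    · exact h4 h1
    · exact h4 (h2 l)
  let c : Cfg :=
    { X := X
      fX := inferInstance
      Γ := Γ
      g := g
      ρ := 9999
      N := N
      M := M
      f := ff
      hX := inferInstance
      hN := hN
      hg := hg
      hρ := by norm_num
      hρg := hρg
      good := hgood
      hom := hhom }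
  refine core c rfl hL ?_
  have hMp : (0 : ℝ) < M := by exact_mod_cast M_pos c
  have hLp : (0 : ℝ) < 10 ^ 20 * (1 + Real.log (5 * g / 9999)) := by
    have : 0 ≤ Real.log (5 * g / 9999) := by
      refine Real.log_nonneg ?_
      rw [le_div_iff₀ (by norm_num)]
      linarith
    positivity
  have h5 := Real.log_le_log hMp hM
  rw [← Real.exp_nat_mul, Real.log_exp] at h5
  have h6 : (N : ℝ) * (1 / (10 ^ 20 * (1 + Real.log (5 * g / 9999))))
      = N / (10 ^ 20 * (1 + Real.log (5 * g / 9999))) := by ring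
  rw [h6, le_div_iff₀ hLp] at h5
  exact h5

/-- **Q1 has a negative answer.** -/
theorem main : ∃ η : FinGraph → ℝ, IsSemHom η ∧ ∃ (G H : FinGraph) (d : ℕ), 1 ≤ d ∧
    Hom (blow G d) (blow H d) ∧ η H < η G := by
  obtain ⟨X, fX, nX, Γ, g, hgood, hρg, hg, hL⟩ := bch 9999 (10 ^ 30) (by norm_num)
  have hlam : 1 < Real.exp (1 / (10 ^ 20 * (1 + Real.log (5 * g / 9999)))) := by
    rw [Real.one_lt_exp_iff]
    have : 0 ≤ Real.log (5 * g / 9999) := by
      refine Real.log_nonneg ?_
      rw [le_div_iff₀ (by norm_num)]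
      linarith
    positivity
  obtain ⟨η, h1, h2⟩ := Pool.Agent.helper46.FH.transfer_of (fun S _ => duality)
    (GX Γ) (HX Γ) _ hlam
    (fun N M hN hM => no_hom Γ g hgood hρg hg hL N M hN hM)
  exact ⟨η, h1, GX Γ, HX Γ, 2, by norm_num, hom_blow Γ, h2⟩

end Pool.Agent.helper15.FH
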