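import Pool.Agent.helper15.FH.EN

set_option autoImplicit false

/-!
# Gibbs' inequality with a defect (MP_8af768_co)
-/

namespace Pool.Agent.helper15.FH

open Finset Pool.Agent.helper32.Cant

noncomputable section

section GI

variable {Ω : Type} [Fintype Ω] {α ζ : Type} {μ : Ω → ℝ}

/-- averaging a function of `Z` with coefficients measurable for `X` -/
theorem ex_own [Fintype ζ] (hμ : ∀ ω, 0 ≤ μ ω) (Z : Ω → ζ) (X : Ω → α) (g : Ω → ζ → ℝ)
    (hg : ∀ ω ω', X ω = X ω' → g ω = g ω') :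
    ex μ (fun ω => g ω (Z ω))
      = ex μ (fun ω => ∑ z, g ω z * ce μ X (fun y => ind (Z y = z)) ω) := by
  classical
  have e1 : ∀ ω, g ω (Z ω) = ∑ z, g ω z * ind (Z ω = z) := by
    intro ω
    rw [sum_eq_single (Z ω)]
    · rw [ind_of rfl, mul_one]
    · intro z _ hz
      rw [ind_of_not (fun h => hz h.symm), mul_zero]
    · intro h
      exact absurd (mem_univ _) h
  have e2 : ex μ (fun ω => g ω (Z ω)) = ex μ (fun ω => ∑ z, g ω z * ind (Z ω = z)) := by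
    congr 1
    funext ω
    exact e1 ω
  rw [e2, ex_sum μ univ (fun z ω => g ω z * ind (Z ω = z)),
    ex_sum μ univ (fun z ω => g ω z * ce μ X (fun y => ind (Z y = z)) ω)]
  refine sum_congr rfl fun z _ => ?_
  exact (ex_mul_ce hμ X (g := fun ω => g ω z) (fun ω ω' h => by rw [hg ω ω' h]) _).symm

theorem ce_own (Z : Ω → ζ) (X : Ω → α) (ω : Ω) :
    ce μ X (fun y => ind (Z y = Z ω)) ω = pm μ (fun y => (X y, Z y)) ω / pm μ X ω := by
  unfold ce
  congr 1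
  have h : pm μ (fun y => (X y, Z y)) ω = ∑ y, μ y * ind ((X y, Z y) = (X ω, Z ω)) := rfl
  rw [h]
  refine sum_congr rfl fun y _ => ?_
  show μ y * ind (X y = X ω) * ind (Z y = Z ω) = _
  by_cases h1 : X y = X ω
  · by_cases h2 : Z y = Z ω
    · rw [ind_of h1, ind_of h2, ind_of (by rw [h1, h2]), mul_one, mul_one]
    · rw [ind_of_not h2, ind_of_not (fun h => h2 (congrArg Prod.snd h))]
      ring
  · rw [ind_of_not h1, ind_of_not (fun h => h1 (congrArg Prod.fst h))]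
    ring

theorem sum_ce [Fintype ζ] (hμ : IsProb μ) (Z : Ω → ζ) (X : Ω → α) {ω : Ω} (h : 0 < μ ω) :
    ∑ z, ce μ X (fun y => ind (Z y = z)) ω = 1 := by
  classical
  rw [← ce_sum μ X univ (fun z y => ind (Z y = z))]
  have e : (fun y => ∑ z, ind (Z y = z)) = fun _ : Ω => (1 : ℝ) := by
    funext y
    rw [sum_eq_single (Z y)]
    · exact ind_of rfl
    · intro z _ hz
      exact ind_of_not (fun h => hz h.symm)
    · intro h
      exact absurd (mem_univ _) h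
  rw [e]
  exact ce_const hμ.1 X h 1

/-- comparison of the Hellinger and total variation distances -/
theorem hell [Fintype ζ] (P w : ζ → ℝ) (hP : ∀ z, 0 ≤ P z) (hw : ∀ z, 0 ≤ w z)
    (hP1 : ∑ z, P z = 1) (hw1 : ∑ z, w z ≤ 1) :
    2 * ((∑ z, √(P z * w z)) - 1) ≤ - (1 / 4 * (∑ z, |P z - w z|) ^ 2) := by
  have e1 : ∀ z, (√(P z) - √(w z)) ^ 2 = P z + w z - 2 * √(P z * w z) := by
    intro z
    rw [sub_sq, Real.sq_sqrt (hP z), Real.sq_sqrt (hw z), Real.sqrt_mul (hP z)]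
    ring
  have e2 : ∀ z, (√(P z) + √(w z)) ^ 2 ≤ 2 * P z + 2 * w z := by
    intro z
    have h1 := Real.sq_sqrt (hP z)
    have h2 := Real.sq_sqrt (hw z)
    nlinarith [sq_nonneg (√(P z) - √(w z))]
  have e3 : ∀ z, |P z - w z| = |√(P z) - √(w z)| * (√(P z) + √(w z)) := by
    intro z
    have h1 := Real.sq_sqrt (hP z)
    have h2 := Real.sq_sqrt (hw z)
    have h3 : 0 ≤ √(P z) + √(w z) := add_nonneg (Real.sqrt_nonneg _) (Real.sqrt_nonneg _)
    have h4 : P z - w z = (√(P z) - √(w z)) * (√(P z) + √(w z)) := by nlinarith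
    rw [h4, abs_mul, abs_of_nonneg h3]
  have e4 : (∑ z, |P z - w z|) ^ 2
      ≤ (∑ z, (√(P z) - √(w z)) ^ 2) * ∑ z, (√(P z) + √(w z)) ^ 2 := by
    simp_rw [e3]
    have h := sum_mul_sq_le_sq_mul_sq univ (fun z => |√(P z) - √(w z)|)
      (fun z => √(P z) + √(w z))
    simpa [sq_abs] using h
  have e5 : ∑ z, (√(P z) + √(w z)) ^ 2 ≤ 4 := by
    calc ∑ z, (√(P z) + √(w z)) ^ 2 ≤ ∑ z, (2 * P z + 2 * w z) := sum_le_sum fun z _ => e2 z
      _ = 2 * ∑ z, P z + 2 * ∑ z, w z := by rw [sum_add_distrib, mul_sum, mul_sum]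
      _ ≤ 4 := by linarith
  have e6 : ∑ z, (√(P z) - √(w z)) ^ 2 = 1 + ∑ z, w z - 2 * ∑ z, √(P z * w z) := by
    simp_rw [e1]
    rw [sum_sub_distrib, sum_add_distrib, hP1, mul_sum]
  have e7 : 0 ≤ ∑ z, (√(P z) - √(w z)) ^ 2 := sum_nonneg fun z _ => sq_nonneg _
  have e8 : (∑ z, |P z - w z|) ^ 2 ≤ (∑ z, (√(P z) - √(w z)) ^ 2) * 4 :=
    e4.trans (mul_le_mul_of_nonneg_left e5 e7)
  linarith

theorem gibbs_defect [Fintype ζ] (hμ : IsProb μ) (Z : Ω → ζ) (X : Ω → α) (w : Ω → ζ → ℝ)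
    (hw0 : ∀ ω z, 0 ≤ w ω z) (hwX : ∀ ω ω', X ω = X ω' → w ω = w ω')
    (hw1 : ∀ ω, ∑ z, w ω z ≤ 1) (hwp : ∀ ω, 0 < μ ω → 0 < w ω (Z ω)) :
    Hc μ Z X ≤ ex μ (fun ω => - Real.log (w ω (Z ω)))
      - 1 / 4 * ex μ (fun ω => (∑ z, |ce μ X (fun y => ind (Z y = z)) ω - w ω z|) ^ 2) := by
  set P : Ω → ζ → ℝ := fun ω z => ce μ X (fun y => ind (Z y = z)) ω with hPdef
  have hP0 : ∀ ω z, 0 ≤ P ω z := fun ω z => ce_nonneg hμ.1 X ω fun _ _ _ => ind_nonneg _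
  have hPX : ∀ ω ω', X ω = X ω' → P ω = P ω' := fun ω ω' h => by
    funext z
    exact ce_eq h
  have s1 : Hc μ Z X - ex μ (fun ω => - Real.log (w ω (Z ω)))
      ≤ ex μ (fun ω => 2 * (√(w ω (Z ω) / P ω (Z ω)) - 1)) := by
    unfold Hc
    rw [← ex_sub]
    refine ex_mono hμ.1 fun ω hω => ?_
    have hX := pm_pos hμ.1 X hω
    have hXZ := pm_pos hμ.1 (fun y => (X y, Z y)) hω
    have hw := hwp ω hω
    have hP : P ω (Z ω) = pm μ (fun y => (X y, Z y)) ω / pm μ X ω := ce_own Z X ω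
    have hPp : 0 < P ω (Z ω) := by rw [hP]; positivity
    have h1 : Real.log (pm μ X ω / pm μ (fun y => (X y, Z y)) ω) = - Real.log (P ω (Z ω)) := by
      rw [hP, ← Real.log_inv, inv_div]
    have h2 : Real.log (w ω (Z ω) / P ω (Z ω)) = 2 * Real.log (√(w ω (Z ω) / P ω (Z ω))) := by
      rw [Real.log_sqrt (by positivity)]
      ring
    have h3 := Real.log_le_sub_one_of_pos
      (show 0 < √(w ω (Z ω) / P ω (Z ω)) from Real.sqrt_pos.2 (by positivity))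
    rw [h1]
    rw [Real.log_div hw.ne' hPp.ne'] at h2
    linarith
  have s2 : ex μ (fun ω => 2 * (√(w ω (Z ω) / P ω (Z ω)) - 1))
      = ex μ (fun ω => ∑ z, 2 * (√(w ω z / P ω z) - 1) * P ω z) :=
    ex_own hμ.1 Z X (fun ω z => 2 * (√(w ω z / P ω z) - 1)) (fun ω ω' h => by
      funext z
      rw [hwX ω ω' h, hPX ω ω' h])
  have s3 : ex μ (fun ω => ∑ z, 2 * (√(w ω z / P ω z) - 1) * P ω z)
      ≤ ex μ (fun ω => - (1 / 4 * (∑ z, |P ω z - w ω z|) ^ 2)) := by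
    refine ex_mono hμ.1 fun ω hω => ?_
    have hP1 : ∑ z, P ω z = 1 := sum_ce hμ Z X hω
    refine le_trans (le_of_eq ?_) (hell (P ω) (w ω) (hP0 ω) (hw0 ω) hP1 (hw1 ω))
    have e : ∀ z, 2 * (√(w ω z / P ω z) - 1) * P ω z = 2 * (√(P ω z * w ω z) - P ω z) := by
      intro z
      rcases (hP0 ω z).eq_or_lt with h0 | h0
      · rw [← h0]
        simp
      · have : √(w ω z / P ω z) * P ω z = √(P ω z * w ω z) := by
          rw [← Real.sqrt_sq h0.le, ← Real.sqrt_mul (div_nonneg (hw0 ω z) (Real.sqrt_nonneg _))]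
          congr 1
          rw [Real.sqrt_sq h0.le]
          field_simp
        rw [← this]
        ring
    rw [sum_congr rfl fun z _ => e z, ← mul_sum, sum_sub_distrib, hP1]
  have s4 : ex μ (fun ω => - (1 / 4 * (∑ z, |P ω z - w ω z|) ^ 2))
      = - (1 / 4 * ex μ (fun ω => (∑ z, |P ω z - w ω z|) ^ 2)) := by
    have := ex_smul μ (-(1 / 4)) (fun ω => (∑ z, |P ω z - w ω z|) ^ 2)
    rw [show (fun ω => - (1 / 4 * (∑ z, |P ω z - w ω z|) ^ 2))
      = fun ω => -(1 / 4) * (∑ z, |P ω z - w ω z|) ^ 2 from funext fun ω => by ring, this]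
    ring
  rw [s2] at s1
  linarith

theorem gibbs [Fintype ζ] (hμ : IsProb μ) (Z : Ω → ζ) (X : Ω → α) (w : Ω → ζ → ℝ) {C : ℝ}
    (hC : 0 < C) (hw0 : ∀ ω z, 0 ≤ w ω z) (hwX : ∀ ω ω', X ω = X ω' → w ω = w ω')
    (hw1 : ∀ ω, ∑ z, w ω z ≤ C) (hwp : ∀ ω, 0 < μ ω → 0 < w ω (Z ω)) :
    Hc μ Z X ≤ ex μ (fun ω => - Real.log (w ω (Z ω))) + Real.log C := by
  have h := gibbs_defect hμ Z X (fun ω z => w ω z / C) (fun ω z => div_nonneg (hw0 ω z) hC.le)
    (fun ω ω' h => by rw [hwX ω ω' h]) (fun ω => by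
      rw [← sum_div]
      exact (div_le_one hC).2 (hw1 ω)) (fun ω hω => div_pos (hwp ω hω) hC)
  have h2 : 0 ≤ ex μ (fun ω => (∑ z, |ce μ X (fun y => ind (Z y = z)) ω - w ω z / C|) ^ 2) :=
    ex_nonneg hμ.1 fun ω _ => sq_nonneg _
  have h3 : ex μ (fun ω => - Real.log (w ω (Z ω) / C))
      = ex μ (fun ω => - Real.log (w ω (Z ω))) + Real.log C := by
    rw [← ex_const hμ (Real.log C), ← ex_add]
    refine ex_congr hμ.1 fun ω hω => ?_
    rw [Real.log_div (hwp ω hω).ne' hC.ne']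
    ring
  rw [h3] at h
  linarith

end GI

end

end Pool.Agent.helper15.FH
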