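import Mathlib

set_option autoImplicit false

/-!
# Finite graphs, joins, disjunctive products, blowups and semiring-homomorphic invariants

The setting of MP_8af768_co.
-/

namespace Pool.Agent.helper15.FH

/-- A finite simple graph (the empty graph is allowed). -/
structure FinGraph : Type 1 where
  /-- the vertices -/
  V : Type
  /-- there are finitely many vertices -/
  fin : Finite V
  /-- the graph -/
  G : SimpleGraph V

/-- there is a homomorphism from `A` to `B` -/
def Hom (A B : FinGraph) : Prop := Nonempty (A.G →g B.G)

/-- the join of two graphs: the disjoint union, plus all edges between the two -/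
def join (A B : FinGraph) : FinGraph where
  V := A.V ⊕ B.V
  fin := by
    have := A.fin
    have := B.fin
    infer_instance
  G :=
    { Adj := fun p q =>
        match p, q with
        | Sum.inl a, Sum.inl a' => A.G.Adj a a'
        | Sum.inr b, Sum.inr b' => B.G.Adj b b'
        | Sum.inl _, Sum.inr _ => True
        | Sum.inr _, Sum.inl _ => True
      symm := ⟨by
        rintro (a | b) (a' | b') h
        · exact SimpleGraph.Adj.symm (G := A.G) h
        · trivial
        · trivial
        · exact SimpleGraph.Adj.symm (G := B.G) h⟩
      loopless := ⟨by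
        rintro (a | b) h
        · exact A.G.irrefl h
        · exact B.G.irrefl h⟩ }

/-- the disjunctive product: `(v, w)` and `(v', w')` are adjacent iff `v, v'` are adjacent or
`w, w'` are adjacent -/
def disj (A B : FinGraph) : FinGraph where
  V := A.V × B.V
  fin := by
    have := A.fin
    have := B.fin
    infer_instance
  G :=
    { Adj := fun p q => A.G.Adj p.1 q.1 ∨ B.G.Adj p.2 q.2
      symm := ⟨fun p q h => h.imp (fun h => h.symm) (fun h => h.symm)⟩
      loopless := ⟨fun p h => h.elim (fun h => A.G.irrefl h) (fun h => B.G.irrefl h)⟩ }

/-- the blowup of `A`: the lexicographic product of `A` with the complete graph on `d` vertices;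
`(v, i)` and `(w, j)` are adjacent iff `v, w` are adjacent, or `v = w` and `i ≠ j` -/
def blow (A : FinGraph) (d : ℕ) : FinGraph where
  V := A.V × Fin d
  fin := by
    have := A.fin
    infer_instance
  G :=
    { Adj := fun p q => A.G.Adj p.1 q.1 ∨ (p.1 = q.1 ∧ p.2 ≠ q.2)
      symm := ⟨fun p q h => h.imp (fun h => h.symm) (fun h => ⟨h.1.symm, h.2.symm⟩)⟩
      loopless := ⟨fun p h => h.elim (fun h => A.G.irrefl h) (fun h => h.2 rfl)⟩ }

/-- the complete graph on `n` vertices -/
def complete (n : ℕ) : FinGraph where
  V := Fin n
  fin := inferInstance
  G := ⊤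

/-- the `N`-th disjunctive power (only used in the proof) -/
def pw (A : FinGraph) (N : ℕ) : FinGraph where
  V := Fin N → A.V
  fin := by
    have := A.fin
    infer_instance
  G :=
    { Adj := fun p q => ∃ k, A.G.Adj (p k) (q k)
      symm := ⟨fun _ _ h => h.imp fun _ h => h.symm⟩
      loopless := ⟨fun _ h => h.elim fun _ h => A.G.irrefl h⟩ }

/-- `η` is a semiring-homomorphic graph invariant: nonnegative, equal to `1` at the graph with one
vertex, monotone under homomorphisms, additive for the join and multiplicative for the
disjunctive product -/
structure IsSemHom (η : FinGraph → ℝ) : Prop where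
  nonneg : ∀ A, 0 ≤ η A
  one : η (complete 1) = 1
  mono : ∀ A B, Hom A B → η A ≤ η B
  add : ∀ A B, η (join A B) = η A + η B
  mul : ∀ A B, η (disj A B) = η A * η B

end Pool.Agent.helper15.FH
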