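import Pool.Agent.helper15.FH.CI

set_option autoImplicit false

/-!
# Entropies of the second `Y`-components and of the sets (MP_8af768_co)
-/

namespace Pool.Agent.helper15.FH

open Finset Pool.Agent.helper32.Cant

noncomputable section

variable (c : Cfg)

theorem kd_eq (z : O c) : kd c z = ∑ k, ind (¬ ag c k z) := rfl

theorem ind_ag_add (k : Fin c.N) (z : O c) : ind (ag c k z) + ind (¬ ag c k z) = 1 := by
  by_cases h : ag c k z
  · rw [ind_of h, ind_of_not (not_not.2 h), add_zero]
  · rw [ind_of_not h, ind_of h, zero_add]

theorem sum_ex_ag : ∑ k, ex (mu c) (fun z => ind (ag c k z)) = c.N - ex (mu c) (kd c) := by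
  have hμ := mu_prob c
  have h : ex (mu c) (kd c) = ∑ k, ex (mu c) (fun z => ind (¬ ag c k z)) := by
    rw [← ex_sum]
    rfl
  have h2 : ∀ k, ex (mu c) (fun z => ind (ag c k z))
      = 1 - ex (mu c) (fun z => ind (¬ ag c k z)) := by
    intro k
    rw [← ex_const hμ 1, ← ex_sub]
    congr 1
    funext z
    have := ind_ag_add c k z
    linarith
  rw [h, sum_congr rfl fun k _ => h2 k, sum_sub_distrib]
  simp

theorem ex_nbad : ex (mu c) (nbad c) = ∑ k, ex (mu c) (bad c k) := by
  rw [← ex_sum]
  rfl

theorem bad_nonneg (k : Fin c.N) (z : O c) : 0 ≤ bad c k z := ind_nonneg _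

theorem card_Y : Fintype.card Y = 10 := by
  unfold Y
  rw [Fintype.card_prod, Fintype.card_bool, ZMod.card]

theorem YY : Hc (mu c) (y2 c) (fun z => (z.1, x2 c z))
    ≤ Real.log 10 * ex (mu c) (kd c) + Real.log 2 * (c.N - ex (mu c) (kd c))
      + Real.log 10 * ex (mu c) (nbad c) := by
  classical
  have hμ := mu_prob c
  have l10 : 0 ≤ Real.log 10 := Real.log_nonneg (by norm_num)
  have l2 : 0 ≤ Real.log 2 := Real.log_nonneg (by norm_num)
  have h1 : ∀ k : Fin c.N, Hc (mu c) (fun z => y2 c z k) (fun z => (z.1, x2 c z))
      ≤ ex (mu c) (fun z => Real.log 10 * ind (¬ ag c k z) + Real.log 2 * ind (ag c k z)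
        + Real.log 10 * bad c k z) := by
    intro k
    have h := gibbs hμ (fun z => y2 c z k) (fun z => (z.1, x2 c z))
      (fun z u => if ag c k z ∧ ¬ (Cs c z.1 k).card < 2 then
        ind (u ∈ Cs c z.1 k) / ((Cs c z.1 k).card : ℝ) else 1 / 10) one_pos
      (fun z u => by
        split_ifs
        · exact div_nonneg (ind_nonneg _) (Nat.cast_nonneg _)
        · norm_num)
      (fun z z' h => by
        simp only [Prod.mk.injEq] at h
        have e1 : ag c k z ↔ ag c k z' := by
          unfold ag x1
          rw [h.1, h.2]
        rw [h.1]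
        funext u
        simp only [e1])
      (fun z => by
        by_cases h : ag c k z ∧ ¬ (Cs c z.1 k).card < 2
        · simp only [if_pos h]
          rw [← sum_div, sum_ind_mem]
          exact div_self_le_one _
        · simp only [if_neg h]
          rw [sum_const, card_univ, card_Y]
          norm_num)
      (fun z hz => by
        by_cases h : ag c k z ∧ ¬ (Cs c z.1 k).card < 2
        · simp only [if_pos h]
          have a1 : y2 c z k ∈ Cs c z.1 k := y2_mem_Cs c hz h.1 h.2
          rw [ind_of a1]
          have := Cs_card_pos c z.1 k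
          positivity
        · simp only [if_neg h]
          norm_num)
    rw [Real.log_one, add_zero] at h
    refine h.trans (ex_mono hμ.1 fun z hz => ?_)
    by_cases h : ag c k z ∧ ¬ (Cs c z.1 k).card < 2
    · simp only [if_pos h]
      have a1 : y2 c z k ∈ Cs c z.1 k := y2_mem_Cs c hz h.1 h.2
      rw [ind_of a1, one_div, Real.log_inv, neg_neg, log_card_Cs, ind_of_not h.2, ind_of h.1,
        ind_of_not (not_not.2 h.1)]
      have := mul_nonneg l10 (bad_nonneg c k z)
      linarith
    · simp only [if_neg h]
      rw [one_div, Real.log_inv, neg_neg]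
      by_cases h2 : ag c k z
      · have h3 : bad c k z = 1 := ind_of (by
          by_contra h4
          exact h ⟨h2, h4⟩)
        rw [h3, ind_of h2, ind_of_not (not_not.2 h2)]
        linarith
      · rw [ind_of_not h2, ind_of h2]
        have := mul_nonneg l10 (bad_nonneg c k z)
        linarith
  refine (Hc_pi_le hμ _ _).trans ((sum_le_sum fun k _ => h1 k).trans (le_of_eq ?_))
  simp only [ex_add, ex_smul]
  rw [sum_add_distrib, sum_add_distrib, ← mul_sum, ← mul_sum, ← mul_sum, sum_ex_ag, ex_nbad]
  congr 3
  rw [← ex_sum]
  rfl

theorem ex_swap (F : O c → ℝ) : ex (mu c) (fun z => F (z.2, z.1)) = ex (mu c) F := by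
  unfold ex
  rw [← (Equiv.prodComm (W c) (W c)).sum_comp (fun z => mu c z * F z)]
  refine sum_congr rfl fun z _ => ?_
  show mu c z * F (z.2, z.1) = mu c (z.2, z.1) * F (z.2, z.1)
  rw [mu_swap]

theorem KE {lam : ℝ} (h0 : 0 < lam) (h1 : lam ≤ 1) :
    Hc (mu c) (YE c) (fun z => (x1 c z, z.2))
      ≤ c.N * Real.log (1 + 1024 * lam) + 2 * Real.log (1 / lam) * ex (mu c) (nbad c) := by
  classical
  have hμ := mu_prob c
  have hl : 0 ≤ Real.log (1 / lam) := Real.log_nonneg (by rw [le_div_iff₀ h0]; linarith)
  have hC : 0 < 1 + 1024 * lam := by positivity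
  have h2 : ∀ k : Fin c.N, Hc (mu c) (fun z => YE c z k) (fun z => (x1 c z, z.2))
      ≤ ex (mu c) (fun z => Real.log (1 / lam) * (bad c k z + bad c k (z.2, z.1)))
        + Real.log (1 + 1024 * lam) := by
    intro k
    have h := gibbs hμ (fun z => YE c z k) (fun z => (x1 c z, z.2))
      (fun z v => if ag c k z then
        (match v with
          | none => 0
          | some s => if s = Cs c z.2 k then 1 else lam)
        else (match v with
          | none => 1
          | some _ => 0)) hC
      (fun z v => by
        split_ifs
        · rcases v with _ | s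
          · exact le_rfl
          · show (0 : ℝ) ≤ if s = Cs c z.2 k then 1 else lam
            split_ifs
            · exact zero_le_one
            · exact h0.le
        · rcases v with _ | s
          · exact zero_le_one
          · exact le_rfl)
      (fun z z' h => by
        simp only [Prod.mk.injEq] at h
        have e1 : ag c k z ↔ ag c k z' := by
          unfold ag x2
          rw [h.1, h.2]
        rw [h.2]
        funext u
        simp only [e1])
      (fun z => by
        by_cases h : ag c k z
        · simp only [if_pos h]
          rw [Fintype.sum_option]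
          show (0 : ℝ) + ∑ s, (if s = Cs c z.2 k then 1 else lam) ≤ 1 + 1024 * lam
          rw [zero_add]
          have e1 : ∑ s : Finset Y, (if s = Cs c z.2 k then 1 else lam)
              ≤ ∑ s : Finset Y, ((if s = Cs c z.2 k then 1 else 0) + lam) := by
            refine sum_le_sum fun s _ => ?_
            split_ifs
            · linarith
            · linarith
          refine e1.trans (le_of_eq ?_)
          rw [sum_add_distrib, sum_ite_eq' univ (Cs c z.2 k), if_pos (mem_univ _), sum_const,
            card_univ, Fintype.card_finset, card_Y]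
          norm_num
        · simp only [if_neg h]
          rw [Fintype.sum_option]
          show (1 : ℝ) + ∑ s : Finset Y, (0 : ℝ) ≤ 1 + 1024 * lam
          rw [sum_const_zero]
          linarith)
      (fun z _ => by
        unfold YE
        by_cases h : ag c k z
        · simp only [if_pos h]
          split_ifs
          · exact one_pos
          · exact h0
        · simp only [if_neg h]
          exact one_pos)
    refine h.trans (add_le_add_left (ex_mono hμ.1 fun z hz => ?_) _)
    unfold YE
    by_cases h : ag c k z
    · simp only [if_pos h]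
      by_cases h3 : Cs c z.1 k = Cs c z.2 k
      · rw [if_pos h3, Real.log_one, neg_zero]
        exact mul_nonneg hl (add_nonneg (bad_nonneg c k _) (bad_nonneg c k _))
      · rw [if_neg h3, one_div, Real.log_inv]
        rw [one_div, Real.log_inv] at hl
        have h4 : 1 ≤ bad c k z + bad c k (z.2, z.1) := by
          by_cases h5 : (Cs c z.1 k).card < 2
          · have e1 : bad c k z = 1 := ind_of h5
            have e2 := bad_nonneg c k (z.2, z.1)
            linarith
          · by_cases h6 : (Cs c z.2 k).card < 2
            · have e1 : bad c k (z.2, z.1) = 1 := ind_of h6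
              have e2 := bad_nonneg c k z
              linarith
            · exact absurd (Cs_eq c hz h h5 h6) h3
        nlinarith
    · simp only [if_neg h]
      rw [Real.log_one, neg_zero]
      exact mul_nonneg hl (add_nonneg (bad_nonneg c k _) (bad_nonneg c k _))
  refine (Hc_pi_le hμ _ _).trans ((sum_le_sum fun k _ => h2 k).trans (le_of_eq ?_))
  have e1 : ∀ k, ex (mu c) (fun z => bad c k (z.2, z.1)) = ex (mu c) (bad c k) :=
    fun k => ex_swap c (bad c k)
  have e2 : ∀ k, ex (mu c) (fun z => Real.log (1 / lam) * (bad c k z + bad c k (z.2, z.1)))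
      = 2 * Real.log (1 / lam) * ex (mu c) (bad c k) := by
    intro k
    rw [ex_smul, ex_add, e1]
    ring
  rw [sum_add_distrib, sum_congr rfl fun k _ => e2 k, ← mul_sum, ← ex_nbad]
  simp only [sum_const, card_univ, Fintype.card_fin, nsmul_eq_mul]
  ring

end

end Pool.Agent.helper15.FH
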